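import Pool.Agent.FLM.Defs

namespace Pool.Agent.FLM

open Set

universe u w

variable {V : Type u} {E : Type w}

private theorem close_desc {E : Type w} (W : Set E) (f : E → E)
    (hf : ∀ y ∈ W, ∀ y' ∈ W, f y = f y' → y = y') (k : ℕ) (y y' : E) :
    ∀ m : ℕ, (∀ j < m, f^[j] y ∈ W) → (∀ j < m + k, f^[j] y' ∈ W) →
      f^[m] y = f^[m + k] y' → y = f^[k] y' := by
  intro m
  induction m with
  | zero =>
    intro _ _ h
    simpa using h
  | succ m ih =>
    intro h1 h2 h3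
    have h4 : m + 1 + k = (m + k) + 1 := by omega
    rw [h4, Function.iterate_succ_apply', Function.iterate_succ_apply'] at h3
    exact ih (fun j hj => h1 j (by omega)) (fun j hj => h2 j (by omega))
      (hf _ (h1 m (by omega)) _ (h2 (m + k) (by omega)) h3)

private theorem close_stable {V : Type u} [LinearOrder V] [WellFoundedLT V] (f : ℕ → V)
    (hf : ∀ k, f (k + 1) ≤ f k) : ∃ K, ∀ k, f (K + k) = f K := by
  have hne : (Set.range f).Nonempty := ⟨f 0, 0, rfl⟩
  obtain ⟨K, hK⟩ := WellFounded.min_mem (wellFounded_lt (α := V)) (Set.range f) hne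
  refine ⟨K, fun k => ?_⟩
  have h1 : f (K + k) ≤ f K := by
    induction k with
    | zero => exact le_rfl
    | succ k ih => exact (hf (K + k)).trans ih
  have h2 : ¬ f (K + k) < f K := by
    rw [hK]
    exact WellFounded.not_lt_min (wellFounded_lt (α := V)) (Set.range f) ⟨K + k, rfl⟩
  exact le_antisymm h1 (not_lt.1 h2)

theorem close {e : Env V E} (he : e.Good) {s : St E} (hs : PDat e s) :
    ∃ t : St E, Dat e t ∧ t.G = s.G ∧ t.H = s.H ∧ t.n = s.n ∧ Ext s t := by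
  classical
  set W : Set E := {y | y ∉ s.G' ∧ ∃ b, e.ok b ∧ e.Ib b ⊆ s.G ∧ y ∈ e.Z b} with hW
  by_cases hne : W = ∅
  · refine ⟨s, ⟨hs, ?_⟩, rfl, rfl, rfl, ?_⟩
    · intro b hb hI y hy
      by_contra hyG
      have : y ∈ W := ⟨hyG, b, hb, hI, hy⟩
      rw [hne] at this
      exact this
    · exact ⟨subset_rfl, subset_rfl, subset_rfl, fun x _ _ => rfl, fun x h1 h2 => absurd h1 h2,
        fun x h1 h2 => absurd h1 h2⟩
  obtain ⟨y0, hy0⟩ := Set.nonempty_iff_ne_empty.2 hne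
  have : Nonempty E := ⟨y0⟩
  have : Nonempty V := ⟨hy0.2.choose⟩
  letI : LinearOrder V := linearOrderOfSTO (WellOrderingRel (α := V))
  haveI : WellFoundedLT V := ⟨(inferInstance : IsWellFounded V WellOrderingRel).wf⟩
  have hb : ∀ y ∈ W, ∃ b, (e.ok b ∧ e.Ib b ⊆ s.G ∧ y ∈ e.Z b) ∧
      ∀ b', e.ok b' → e.Ib b' ⊆ s.G → y ∈ e.Z b' → b ≤ b' := by
    intro y hy
    have hne : {b | e.ok b ∧ e.Ib b ⊆ s.G ∧ y ∈ e.Z b}.Nonempty := hy.2
    refine ⟨WellFounded.min (wellFounded_lt (α := V)) _ hne,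
      WellFounded.min_mem (wellFounded_lt (α := V)) _ hne, ?_⟩
    intro b' h1 h2 h3
    exact not_lt.1 (WellFounded.not_lt_min (wellFounded_lt (α := V))
      {b | e.ok b ∧ e.Ib b ⊆ s.G ∧ y ∈ e.Z b} ⟨h1, h2, h3⟩)
  choose! bb hb1 hb2 using hb
  have hx : ∀ y ∈ W, ∃ x ∈ e.Xb (bb y), e.L (bb y) x = y := fun y hy =>
    he.Z_cov _ (hb1 y hy).1 y (hb1 y hy).2.2
  choose! xx hx1 hx2 using hx
  have hxX : ∀ y ∈ W, xx y ∈ e.X := fun y hy => he.Xb_sub _ (hb1 y hy).1 (hx1 y hy)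
  have hyNB : ∀ y ∈ W, y ∈ e.NB (xx y) := by
    intro y hy
    have := he.L_nb _ (hb1 y hy).1 _ (hx1 y hy)
    rwa [hx2 y hy] at this
  have hyND : ∀ y ∈ W, y ∈ e.ND (xx y) := fun y hy => he.NB_ND _ (hyNB y hy)
  have hyIv : ∀ y ∈ W, y ∉ e.Iv := fun y hy => he.Z5 _ (hb1 y hy).1 y (hb1 y hy).2.2
  have hyG' : ∀ y ∈ W, y ∉ s.G' := fun y hy => hy.1
  have hmemW : ∀ b, e.ok b → e.Ib b ⊆ s.G → ∀ y ∈ e.Z b, y ∉ s.G' → y ∈ W :=
    fun b h1 h2 y h3 h4 => ⟨h4, b, h1, h2, h3⟩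
  have hi : ∀ y ∈ W, ∀ z ∈ e.ND (xx y), z ∉ s.G' → z ∈ e.Z (bb y) := by
    intro y hy z hz hzG
    have h1 := he.Z3 _ (hb1 y hy).1 _ (hx1 y hy) (by rw [hx2 y hy]; exact (hb1 y hy).2.2) hz
    rcases h1 with h1 | h1
    · exact h1
    · exact absurd (hs.sub ((hb1 y hy).2.1 h1)) hzG
  have hi' : ∀ y ∈ W, ∀ z ∈ e.ND (xx y), z ∈ s.G' ∪ W := by
    intro y hy z hz
    by_cases hzG : z ∈ s.G'
    · exact Or.inl hzG
    · exact Or.inr (hmemW _ (hb1 y hy).1 (hb1 y hy).2.1 z (hi y hy z hz hzG) hzG)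
  have hii : ∀ y ∈ W, xx y ∉ s.A := fun y hy hA =>
    hyG' y hy (hs.ndA _ hA (hyND y hy))
  have hiii : ∀ y ∈ W, xx y ∉ s.H := fun y hy hH =>
    hyG' y hy (hs.sub (hs.HN _ hH ⟨hyNB y hy, hyIv y hy⟩))
  have hiv : ∀ y ∈ W, ∀ y' ∈ W, xx y = xx y' → y = y' := by
    intro y hy y' hy' hxy
    have h1 : y' ∈ e.Z (bb y) := hi y hy y' (by rw [hxy]; exact hyND y' hy') (hyG' y' hy')
    have h2 : y ∈ e.Z (bb y') := hi y' hy' y (by rw [← hxy]; exact hyND y hy) (hyG' y hy)
    have h3 : bb y' ≤ bb y := hb2 y' hy' _ (hb1 y hy).1 (hb1 y hy).2.1 h1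
    have h4 : bb y ≤ bb y' := hb2 y hy _ (hb1 y' hy').1 (hb1 y' hy').2.1 h2
    have h5 : bb y = bb y' := le_antisymm h4 h3
    rw [← hx2 y hy, ← hx2 y' hy', h5, hxy]
  set P' : E → E := fun x => if h : ∃ y ∈ W, xx y = x then h.choose else s.P x with hP'
  have hPx : ∀ y ∈ W, P' (xx y) = y := by
    intro y hy
    have h : ∃ y' ∈ W, xx y' = xx y := ⟨y, hy, rfl⟩
    simp only [hP', dif_pos h]
    exact hiv _ h.choose_spec.1 _ hy h.choose_spec.2
  have hPA : ∀ x ∈ s.A, P' x = s.P x := by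
    intro x hxA
    have h : ¬ ∃ y ∈ W, xx y = x := by
      rintro ⟨y, hy, rfl⟩
      exact hii y hy hxA
    simp only [hP', dif_neg h]
  have hPG : ∀ x ∈ s.A, s.P x ∈ s.G' ∧ s.P x ∉ s.G := by
    intro x hxA
    have : s.P x ∈ s.G' \ s.G := by
      rw [← hs.img]
      exact ⟨x, hxA, rfl⟩
    exact this
  set nx : E → E := fun y => e.M (xx y) with hnx
  have hnxinj : ∀ y ∈ W, ∀ y' ∈ W, nx y = nx y' → y = y' := by
    intro y hy y' hy' h
    exact hiv y hy y' hy' (he.M_inj (hxX y hy) (hxX y' hy') h)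
  have hnxmem : ∀ y ∈ W, nx y ∈ s.G' ∪ W := fun y hy =>
    hi' y hy _ (he.M_nd _ (hxX y hy))
  have hcnt : ∀ F : Finset E, (∀ y ∈ F, y ∈ s.G' ∪ W) →
      (∀ y ∈ F, ∀ x, x ∈ s.H ∨ x ∈ s.A ∪ xx '' W → e.M x ≠ y) → (F.card : ℤ) ≤ s.n := by
    intro F hF1 hF2
    have hstop : ∀ y ∈ F, ∃ m, nx^[m] y ∉ W := by
      intro y hy
      by_contra hcon
      push Not at hcon
      have hmono : ∀ k, bb (nx^[k + 1] y) ≤ bb (nx^[k] y) := by
        intro k
        have h1 : nx^[k + 1] y = e.M (xx (nx^[k] y)) := by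
          rw [Function.iterate_succ_apply']
        have h2 : nx^[k + 1] y ∈ e.Z (bb (nx^[k] y)) := by
          refine hi _ (hcon k) _ ?_ (hyG' _ (hcon (k + 1)))
          rw [h1]
          exact he.M_nd _ (hxX _ (hcon k))
        exact hb2 _ (hcon (k + 1)) _ (hb1 _ (hcon k)).1 (hb1 _ (hcon k)).2.1 h2
      obtain ⟨K, hK⟩ := close_stable (fun k => bb (nx^[k] y)) hmono
      have hz4 := he.Z4 (bb (nx^[K] y)) (hb1 _ (hcon K)).1 (fun k => xx (nx^[K + k] y)) ?_
      · obtain ⟨k, hk⟩ := hz4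
        have h1 : e.L (bb (nx^[K] y)) (xx (nx^[K + 0] y)) = nx^[K] y := by
          rw [add_zero]
          exact hx2 _ (hcon K)
        rw [h1] at hk
        have h2 : e.M (xx (nx^[K + k] y)) = nx^[K + (k + 1)] y := by
          rw [← add_assoc, Function.iterate_succ_apply']
        rw [h2] at hk
        have h3 := close_desc W nx hnxinj (k + 1) y y K (fun j _ => hcon j)
          (fun j _ => hcon j) hk.symm
        rw [Function.iterate_succ_apply'] at h3
        exact hF2 y hy (xx (nx^[k] y)) (Or.inr (Or.inr ⟨_, hcon k, rfl⟩)) h3.symm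
      · intro k
        have hbk : bb (nx^[K + k] y) = bb (nx^[K] y) := hK k
        have hbk1 : bb (nx^[K + (k + 1)] y) = bb (nx^[K] y) := hK (k + 1)
        refine ⟨?_, ?_, ?_⟩
        · have := hx1 _ (hcon (K + k))
          rwa [hbk] at this
        · have h5 := hx2 _ (hcon (K + k))
          rw [hbk] at h5
          rw [h5]
          have := (hb1 _ (hcon (K + k))).2.2
          rwa [hbk] at this
        · have h5 := hx2 _ (hcon (K + (k + 1)))
          rw [hbk1] at h5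
          rw [h5, ← add_assoc, Function.iterate_succ_apply']
    have hz : ∀ y ∈ F, ∃ m, nx^[m] y ∉ W ∧ ∀ j < m, nx^[j] y ∈ W := by
      intro y hy
      refine ⟨Nat.find (hstop y hy), Nat.find_spec (hstop y hy), ?_⟩
      intro j hj
      by_contra h
      exact Nat.find_min (hstop y hy) hj h
    choose! mm hm1 hm2 using hz
    have hzG : ∀ y ∈ F, nx^[mm y] y ∈ s.G' := by
      intro y hy
      have h1 : nx^[mm y] y ∈ s.G' ∪ W := by
        rcases Nat.eq_zero_or_pos (mm y) with h0 | h0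
        · rw [h0]
          exact hF1 y hy
        · obtain ⟨m, hm⟩ := Nat.exists_eq_succ_of_ne_zero h0.ne'
          rw [hm, Nat.succ_eq_add_one, Function.iterate_succ_apply']
          exact hnxmem _ (hm2 y hy m (by omega))
      rcases h1 with h1 | h1
      · exact h1
      · exact absurd h1 (hm1 y hy)
    have hle : ∀ y ∈ F, ∀ y' ∈ F, mm y ≤ mm y' → nx^[mm y] y = nx^[mm y'] y' → y = y' := by
      intro y hy y' hy' hmm h
      obtain ⟨k, hk⟩ := Nat.exists_eq_add_of_le hmm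
      rw [hk] at h
      have h1 := close_desc W nx hnxinj k y y' (mm y) (hm2 y hy)
        (fun j hj => hm2 y' hy' j (by omega)) h
      rcases Nat.eq_zero_or_pos k with h0 | h0
      · rw [h0] at h1
        exact h1
      · exfalso
        obtain ⟨k', hk'⟩ := Nat.exists_eq_succ_of_ne_zero h0.ne'
        rw [hk', Nat.succ_eq_add_one, Function.iterate_succ_apply'] at h1
        exact hF2 y hy (xx (nx^[k'] y'))
          (Or.inr (Or.inr ⟨_, hm2 y' hy' k' (by omega), rfl⟩)) h1.symm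
    have hinj : Set.InjOn (fun y => nx^[mm y] y) (F : Set E) := by
      intro y hy y' hy' h
      rcases le_total (mm y) (mm y') with h1 | h1
      · exact hle y hy y' hy' h1 h
      · exact (hle y' hy' y hy h1 h.symm).symm
    have hcard : (F.image (fun y => nx^[mm y] y)).card = F.card :=
      Finset.card_image_of_injOn hinj
    rw [← hcard]
    refine hs.cnt _ ?_ ?_
    · intro z hz
      obtain ⟨y, hy, rfl⟩ := Finset.mem_image.1 hz
      exact hzG y hy
    · intro z hz x hx hMx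
      obtain ⟨y, hy, rfl⟩ := Finset.mem_image.1 hz
      rcases Nat.eq_zero_or_pos (mm y) with h0 | h0
      · simp only [h0, Function.iterate_zero, id] at hMx
        refine hF2 y hy x ?_ hMx
        rcases hx with hx | hx
        · exact Or.inl hx
        · exact Or.inr (Or.inl hx)
      · obtain ⟨m, hm⟩ := Nat.exists_eq_succ_of_ne_zero h0.ne'
        have hmW : nx^[m] y ∈ W := hm2 y hy m (by omega)
        simp only [hm, Nat.succ_eq_add_one, Function.iterate_succ_apply'] at hMx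
        have hxX' : x ∈ e.X := by
          rcases hx with hx | hx
          · exact (hs.HX x hx).1
          · exact hs.AX hx
        have hxe : x = xx (nx^[m] y) := he.M_inj hxX' (hxX _ hmW) hMx
        rcases hx with hx | hx
        · exact hiii _ hmW (hxe ▸ hx)
        · exact hii _ hmW (hxe ▸ hx)
  refine ⟨⟨s.G, s.H, s.n, s.G' ∪ W, s.A ∪ xx '' W, P'⟩, ⟨⟨?_, ?_, ?_, ?_, ?_, ?_, ?_, ?_, ?_, ?_,
    hcnt⟩, ?_⟩, rfl, rfl, rfl, ?_⟩
  · exact hs.sub.trans subset_union_left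
  · rintro x (hx | ⟨y, hy, rfl⟩)
    · exact hs.AX hx
    · exact hxX y hy
  · change InjOn P' (s.A ∪ xx '' W)
    rintro x (hx | ⟨y, hy, rfl⟩) x' (hx' | ⟨y', hy', rfl⟩) h
    · rw [hPA x hx, hPA x' hx'] at h
      exact hs.inj hx hx' h
    · rw [hPA x hx, hPx y' hy'] at h
      exact absurd (h ▸ (hPG x hx).1) (hyG' y' hy')
    · rw [hPA x' hx', hPx y hy] at h
      exact absurd (h.symm ▸ (hPG x' hx').1) (hyG' y hy)
    · rw [hPx y hy, hPx y' hy'] at h
      rw [h]
  · change P' '' (s.A ∪ xx '' W) = (s.G' ∪ W) \ s.G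
    ext z
    constructor
    · rintro ⟨x, hx | ⟨y, hy, rfl⟩, rfl⟩
      · rw [hPA x hx]
        exact ⟨Or.inl (hPG x hx).1, (hPG x hx).2⟩
      · rw [hPx y hy]
        exact ⟨Or.inr hy, fun h => hyG' y hy (hs.sub h)⟩
    · rintro ⟨hz | hz, hzG⟩
      · have : z ∈ s.P '' s.A := by
          rw [hs.img]
          exact ⟨hz, hzG⟩
        obtain ⟨x, hx, rfl⟩ := this
        exact ⟨x, Or.inl hx, hPA x hx⟩
      · exact ⟨xx z, Or.inr ⟨z, hz, rfl⟩, hPx z hz⟩
  · rintro x (hx | ⟨y, hy, rfl⟩)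
    · change P' x ∈ e.ND x
      rw [hPA x hx]
      exact hs.nd x hx
    · change P' (xx y) ∈ e.ND (xx y)
      rw [hPx y hy]
      exact hyND y hy
  · rintro x (hx | ⟨y, hy, rfl⟩) hxB
    · change P' x ∈ e.NB x
      rw [hPA x hx]
      exact hs.nb x hx hxB
    · change P' (xx y) ∈ e.NB (xx y)
      rw [hPx y hy]
      exact hyNB y hy
  · rintro x (hx | ⟨y, hy, rfl⟩)
    · change P' x ∉ e.Iv
      rw [hPA x hx]
      exact hs.iv x hx
    · change P' (xx y) ∉ e.Iv
      rw [hPx y hy]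
      exact hyIv y hy
  · rintro x (hx | ⟨y, hy, rfl⟩)
    · exact (hs.ndA x hx).trans subset_union_left
    · exact fun z hz => hi' y hy z hz
  · exact hs.HX
  · exact hs.HN
  · intro b hb hI y hy
    by_cases hyG : y ∈ s.G'
    · exact Or.inl hyG
    · exact Or.inr (hmemW b hb hI y hy hyG)
  · refine ⟨subset_rfl, subset_rfl, subset_union_left, ?_, ?_, ?_⟩
    · intro x hx _
      exact hPA x hx
    · rintro x (hx | ⟨y, hy, rfl⟩) hxA
      · exact absurd hx hxA
      · change P' (xx y) ∉ s.G'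
        rw [hPx y hy]
        exact hyG' y hy
    · intro x hx hxt
      exact absurd (Or.inl hx) hxt

end Pool.Agent.FLM
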