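import Pool.Agent.FLM.Defs

namespace Pool.Agent.FLM

open Set

universe u w

variable {V : Type u} {E : Type w}

private theorem LIM_G {f : ℕ → St E} (hx : ∀ k, Ext (f k) (f (k + 1))) {i j : ℕ} (h : i ≤ j) :
    (f i).G ⊆ (f j).G :=
  (monotone_nat_of_le_succ (f := fun k => (f k).G) fun k => (hx k).G) h

private theorem LIM_H {f : ℕ → St E} (hx : ∀ k, Ext (f k) (f (k + 1))) {i j : ℕ} (h : i ≤ j) :
    (f i).H ⊆ (f j).H :=
  (monotone_nat_of_le_succ (f := fun k => (f k).H) fun k => (hx k).H) h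

private theorem LIM_G' {f : ℕ → St E} (hx : ∀ k, Ext (f k) (f (k + 1))) {i j : ℕ} (h : i ≤ j) :
    (f i).G' ⊆ (f j).G' :=
  (monotone_nat_of_le_succ (f := fun k => (f k).G') fun k => (hx k).G') h

/-- an element whose partner is never exposed stays -/
private theorem LIM_a {f : ℕ → St E} (hx : ∀ k, Ext (f k) (f (k + 1))) {x : E} {k : ℕ}
    (hA : x ∈ (f k).A) (hP : ∀ j, (f k).P x ∉ (f j).G) {j : ℕ} (hj : k ≤ j) :
    x ∈ (f j).A ∧ (f j).P x = (f k).P x := by
  induction j, hj using Nat.le_induction with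
  | base => exact ⟨hA, rfl⟩
  | succ m _ ih =>
    obtain ⟨h1, h2⟩ := ih
    by_cases h3 : x ∈ (f (m + 1)).A
    · exact ⟨h3, by rw [(hx m).keep x h1 h3, h2]⟩
    · exact absurd ((hx m).old x h1 h3) (by rw [h2]; exact hP (m + 1))

/-- once left, never back -/
private theorem LIM_b {e : Env V E} {f : ℕ → St E} (hf : ∀ k, PDat e (f k))
    (hx : ∀ k, Ext (f k) (f (k + 1))) {x : E} {i : ℕ} (hi : x ∈ (f i).A)
    (hi' : x ∉ (f (i + 1)).A) {j : ℕ} (hj : i + 1 ≤ j) : x ∉ (f j).A := by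
  induction j, hj using Nat.le_induction with
  | base => exact hi'
  | succ m hm ih =>
    intro h
    have h1 := (hx m).new x h ih
    have h2 := (hf (m + 1)).nd x h
    exact h1 (LIM_G' hx (by omega) ((hf i).ndA x hi h2))

private theorem LIM_dich {e : Env V E} {f : ℕ → St E} (hf : ∀ k, PDat e (f k))
    (hx : ∀ k, Ext (f k) (f (k + 1))) {x : E} {i : ℕ} (hi : x ∈ (f i).A) {j : ℕ} (hj : i ≤ j) :
    x ∈ (f j).A ∨ ∀ l, j ≤ l → x ∉ (f l).A := by
  induction j, hj using Nat.le_induction with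
  | base => exact Or.inl hi
  | succ m hm ih =>
    rcases ih with h | h
    · by_cases h1 : x ∈ (f (m + 1)).A
      · exact Or.inl h1
      · exact Or.inr fun l hl => LIM_b hf hx h h1 hl
    · exact Or.inr fun l hl => h l (by omega)

private theorem LIM_between {e : Env V E} {f : ℕ → St E} (hf : ∀ k, PDat e (f k))
    (hx : ∀ k, Ext (f k) (f (k + 1))) {x : E} {i : ℕ} (hi : x ∈ (f i).A) {j : ℕ} (hj : i ≤ j)
    (h : x ∈ (f j).A) : (f j).P x = (f i).P x := by
  induction j, hj using Nat.le_induction with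
  | base => rfl
  | succ m hm ih =>
    rcases LIM_dich hf hx hi hm with h1 | h1
    · rw [(hx m).keep x h1 h, ih h1]
    · exact absurd h (h1 (m + 1) (by omega))

/-- the condition defining the new set `A` -/
private def LIM_A (f : ℕ → St E) (x : E) (k : ℕ) : Prop :=
  x ∈ (f k).A ∧ ∀ j, (f k).P x ∉ (f j).G

open Classical in
/-- the partners -/
private noncomputable def LIM_P (f : ℕ → St E) (x : E) : E :=
  if h : ∃ k, LIM_A f x k then (f h.choose).P x else x

private theorem LIM_P_eq {e : Env V E} {f : ℕ → St E} (hf : ∀ k, PDat e (f k))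
    (hx : ∀ k, Ext (f k) (f (k + 1))) {x : E} {k : ℕ} (hk : LIM_A f x k) :
    LIM_P f x = (f k).P x := by
  have h : ∃ k, LIM_A f x k := ⟨k, hk⟩
  unfold LIM_P
  rw [dif_pos h]
  obtain ⟨h1, h2⟩ := h.choose_spec
  rcases le_total h.choose k with h3 | h3
  · exact (LIM_between hf hx h1 h3 hk.1).symm
  · exact LIM_between hf hx hk.1 h3 h1

/-- an element outside the new set `A` leaves the sets `A` eventually -/
private theorem LIM_leave {e : Env V E} {f : ℕ → St E} (hf : ∀ k, PDat e (f k))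
    (hx : ∀ k, Ext (f k) (f (k + 1))) {x : E} (h : ∀ k, ¬ LIM_A f x k) :
    ∃ N, ∀ j, N ≤ j → x ∉ (f j).A := by
  by_contra hcon
  push Not at hcon
  obtain ⟨i, _, hi⟩ := hcon 0
  have hall : ∀ j, i ≤ j → x ∈ (f j).A := by
    intro j hj
    rcases LIM_dich hf hx hi hj with h1 | h1
    · exact h1
    · obtain ⟨l, hl, hl'⟩ := hcon j
      exact absurd hl' (h1 l hl)
  apply h i
  refine ⟨hi, fun j hj => ?_⟩
  have hJ : i ≤ max i j := le_max_left _ _
  have h1 := LIM_between hf hx hi hJ (hall _ hJ)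
  have h2 : (f (max i j)).P x ∈ (f (max i j)).G' \ (f (max i j)).G := by
    rw [← (hf (max i j)).img]
    exact ⟨x, hall _ hJ, rfl⟩
  rw [h1] at h2
  exact h2.2 (LIM_G hx (le_max_right _ _) hj)

theorem limit_pdat {e : Env V E} (he : e.Good) (f : ℕ → St E) (hf : ∀ k, PDat e (f k))
    (hx : ∀ k, Ext (f k) (f (k + 1))) (n : ℤ) (hn : ∀ k, (f k).n = n) :
    ∃ t : St E, PDat e t ∧ t.G = ⋃ k, (f k).G ∧ t.H = ⋃ k, (f k).H ∧ t.n = n ∧
      ∀ k, Ext (f k) t := by
  classical
  refine ⟨⟨⋃ k, (f k).G, ⋃ k, (f k).H, n, ⋃ k, (f k).G', {x | ∃ k, LIM_A f x k}, LIM_P f⟩,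
    ?_, rfl, rfl, rfl, ?_⟩
  · constructor
    · exact iUnion_mono fun k => (hf k).sub
    · rintro x ⟨k, hk⟩
      exact (hf k).AX hk.1
    · rintro x ⟨k, hk⟩ y ⟨l, hl⟩ hxy
      change LIM_P f x = LIM_P f y at hxy
      rw [LIM_P_eq hf hx hk, LIM_P_eq hf hx hl] at hxy
      obtain ⟨a1, a2⟩ := LIM_a hx hk.1 hk.2 (le_max_left k l)
      obtain ⟨b1, b2⟩ := LIM_a hx hl.1 hl.2 (le_max_right k l)
      exact (hf (max k l)).inj a1 b1 (by rw [a2, b2, hxy])
    · change LIM_P f '' {x | ∃ k, LIM_A f x k} = (⋃ k, (f k).G') \ ⋃ k, (f k).G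
      ext y
      constructor
      · rintro ⟨x, ⟨k, hk⟩, rfl⟩
        rw [LIM_P_eq hf hx hk]
        have h1 : (f k).P x ∈ (f k).G' \ (f k).G := by
          rw [← (hf k).img]
          exact ⟨x, hk.1, rfl⟩
        refine ⟨mem_iUnion.2 ⟨k, h1.1⟩, fun h2 => ?_⟩
        obtain ⟨j, hj⟩ := mem_iUnion.1 h2
        exact hk.2 j hj
      · rintro ⟨h1, h2⟩
        obtain ⟨k, hk⟩ := mem_iUnion.1 h1
        have h3 : ∀ j, y ∉ (f j).G := fun j hj => h2 (mem_iUnion.2 ⟨j, hj⟩)
        have h4 : y ∈ (f k).P '' (f k).A := by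
          rw [(hf k).img]
          exact ⟨hk, h3 k⟩
        obtain ⟨x, hxA, rfl⟩ := h4
        exact ⟨x, ⟨k, hxA, h3⟩, LIM_P_eq hf hx ⟨hxA, h3⟩⟩
    · rintro x ⟨k, hk⟩
      change LIM_P f x ∈ _
      rw [LIM_P_eq hf hx hk]
      exact (hf k).nd x hk.1
    · rintro x ⟨k, hk⟩ hB
      change LIM_P f x ∈ _
      rw [LIM_P_eq hf hx hk]
      exact (hf k).nb x hk.1 hB
    · rintro x ⟨k, hk⟩
      change LIM_P f x ∉ _
      rw [LIM_P_eq hf hx hk]
      exact (hf k).iv x hk.1
    · rintro x ⟨k, hk⟩ y hy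
      exact mem_iUnion.2 ⟨k, (hf k).ndA x hk.1 hy⟩
    · intro x hxH
      obtain ⟨k, hk⟩ := mem_iUnion.1 hxH
      exact (hf k).HX x hk
    · intro x hxH y hy
      obtain ⟨k, hk⟩ := mem_iUnion.1 hxH
      exact mem_iUnion.2 ⟨k, (hf k).HN x hk hy⟩
    · intro F hF hM
      change (F.card : ℤ) ≤ n
      have hF' : ∀ y : E, ∃ k, y ∈ F → y ∈ (f k).G' := by
        intro y
        by_cases hy : y ∈ F
        · obtain ⟨k, hk⟩ := mem_iUnion.1 (hF y hy)
          exact ⟨k, fun _ => hk⟩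
        · exact ⟨0, fun h => absurd h hy⟩
      have hL : ∀ y : E, ∃ N, y ∈ F → ∀ j, N ≤ j → ∀ x, x ∈ (f j).H ∨ x ∈ (f j).A →
          e.M x ≠ y := by
        intro y
        by_cases hy : y ∈ F
        · by_cases hex : ∃ x₀ ∈ e.X, e.M x₀ = y
          · obtain ⟨x₀, hx₀, rfl⟩ := hex
            have hH : ∀ j, x₀ ∉ (f j).H := fun j hj =>
              hM _ hy x₀ (Or.inl (mem_iUnion.2 ⟨j, hj⟩)) rfl
            have hA : ∀ k, ¬ LIM_A f x₀ k := fun k hk => hM _ hy x₀ (Or.inr ⟨k, hk⟩) rfl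
            obtain ⟨N, hN⟩ := LIM_leave hf hx hA
            refine ⟨N, fun _ j hj x hxj hMx => ?_⟩
            have hxX : x ∈ e.X := by
              rcases hxj with h | h
              · exact ((hf j).HX x h).1
              · exact (hf j).AX h
            have : x = x₀ := he.M_inj hxX hx₀ hMx
            subst this
            rcases hxj with h | h
            · exact hH j h
            · exact hN j hj h
          · refine ⟨0, fun _ j _ x hxj hMx => hex ⟨x, ?_, hMx⟩⟩
            rcases hxj with h | h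
            · exact ((hf j).HX x h).1
            · exact (hf j).AX h
        · exact ⟨0, fun h => absurd h hy⟩
      choose K hK using hF'
      choose N hN using hL
      set J := F.sup K + F.sup N with hJ
      have hKJ : ∀ y ∈ F, K y ≤ J := fun y hy =>
        (Finset.le_sup (f := K) hy).trans (Nat.le_add_right _ _)
      have hNJ : ∀ y ∈ F, N y ≤ J := fun y hy =>
        (Finset.le_sup (f := N) hy).trans (Nat.le_add_left _ _)
      have h1 := (hf J).cnt F (fun y hy => LIM_G' hx (hKJ y hy) (hK y hy))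
        (fun y hy x hxJ => hN y hy J (hNJ y hy) x hxJ)
      rwa [hn J] at h1
  · intro k
    constructor
    · exact subset_iUnion (fun k => (f k).G) k
    · exact subset_iUnion (fun k => (f k).H) k
    · exact subset_iUnion (fun k => (f k).G') k
    · rintro x hxk ⟨l, hl⟩
      change LIM_P f x = _
      rw [LIM_P_eq hf hx hl]
      rcases le_total l k with h | h
      · exact (LIM_between hf hx hl.1 h hxk).symm
      · exact LIM_between hf hx hxk h hl.1
    · rintro x ⟨l, hl⟩ hxk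
      change LIM_P f x ∉ _
      rw [LIM_P_eq hf hx hl]
      have hkl : k < l := by
        by_contra hcon
        exact hxk (LIM_a hx hl.1 hl.2 (not_lt.1 hcon)).1
      -- least index after `k` with `x` in `A`
      have hex : ∃ j, k < j ∧ x ∈ (f j).A := ⟨l, hkl, hl.1⟩
      obtain ⟨h1, h2⟩ := Nat.find_spec hex
      have h3 : ∀ m, m < Nat.find hex → ¬ (k < m ∧ x ∈ (f m).A) :=
        fun m hm => Nat.find_min hex hm
      have hjl : Nat.find hex ≤ l := Nat.find_min' hex ⟨hkl, hl.1⟩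
      generalize Nat.find hex = j at h1 h2 h3 hjl
      obtain ⟨m, rfl⟩ : ∃ m, j = m + 1 := ⟨j - 1, by omega⟩
      have h4 : x ∉ (f m).A := by
        rcases Nat.lt_or_ge k m with h5 | h5
        · exact fun h6 => h3 m (by omega) ⟨h5, h6⟩
        · have : m = k := by omega
          rw [this]
          exact hxk
      have h5 := (hx m).new x h2 h4
      rw [LIM_between hf hx h2 hjl hl.1]
      exact fun h6 => h5 (LIM_G' hx (by omega) h6)
    · intro x hxk hxt
      by_contra hcon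
      exact hxt ⟨k, hxk, fun j hj => hcon (mem_iUnion.2 ⟨j, hj⟩)⟩

end Pool.Agent.FLM
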