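import Pool.Agent.FLM.Step
import Pool.Agent.FLM.Close
import Pool.Agent.FLM.Lim

namespace Pool.Agent.FLM

open Set

universe u w

variable {V : Type u} {E : Type w}

theorem bar_init {e : Env V E} (he : e.Good) :
    ∃ s : St E, Dat e s ∧ s.G = ∅ ∧ s.H = ∅ ∧ s.n = 0 := by
  obtain ⟨t, h1, h2, h3, h4, -⟩ := close he (init_pdat e)
  exact ⟨t, h1, h2, h3, h4⟩

theorem bar_addY {e : Env V E} (he : e.Good) {s : St E} (hs : Dat e s) (y : E)
    (hy : y ∉ s.G) :
    ∃ t : St E, Dat e t ∧ t.G = insert y s.G ∧ t.H = s.H ∧ t.n = s.n + 1 ∧ Ext s t := by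
  obtain ⟨t, h1, h2, h3, h4, h5⟩ := addY_pdat he hs.toPDat y hy
  obtain ⟨t', k1, k2, k3, k4, k5⟩ := close he h1
  exact ⟨t', k1, k2.trans h2, k3.trans h3, k4.trans h4,
    ext_trans hs.toPDat k1.toPDat h5 k5⟩

theorem bar_limit {e : Env V E} (he : e.Good) (f : ℕ → St E) (hf : ∀ k, Dat e (f k))
    (hx : ∀ k, Ext (f k) (f (k + 1))) (n : ℤ) (hn : ∀ k, (f k).n = n) :
    ∃ t : St E, Dat e t ∧ t.G = ⋃ k, (f k).G ∧ t.H = ⋃ k, (f k).H ∧ t.n = n ∧
      ∀ k, Ext (f k) t := by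
  obtain ⟨t, h1, h2, h3, h4, h5⟩ := limit_pdat he f (fun k => (hf k).toPDat) hx n hn
  obtain ⟨t', k1, k2, k3, k4, k5⟩ := close he h1
  exact ⟨t', k1, k2.trans h2, k3.trans h3, k4.trans h4,
    fun k => ext_trans (hf k).toPDat k1.toPDat (h5 k) k5⟩

/-- The invariant of the recursion. -/
structure BarInv (e : Env V E) (F : Set E) (ν : E → E) (l : List E) (s : St E) : Prop where
  dat : Dat e s
  G : s.G = ν '' (s.H ∪ {y | y ∈ l})
  n : s.n = l.length
  H : s.H ⊆ F
  dis : ∀ y ∈ l, y ∉ s.H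

theorem bar_run {e : Env V E} (he : e.Good) {F : Set E} {ν : E → E} {l : List E} {s : St E}
    (hs : BarInv e F ν l s) (z : ℕ → E)
    (hstep : ∀ (i : ℕ) (s : St E), BarInv e F ν l s →
      ∃ s' : St E, BarInv e F ν l s' ∧ Ext s s' ∧ (z i ∈ s'.H ∨ z i ∈ l)) :
    ∃ t : St E, BarInv e F ν l t ∧ Ext s t ∧ ∀ i, z i ∈ t.H ∨ z i ∈ l := by
  have : Nonempty (St E) := ⟨s⟩
  choose! g hg1 hg2 hg3 using hstep
  let f : ℕ → St E := fun k => Nat.rec s (fun k fk => g k fk) k
  have f0 : f 0 = s := rfl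
  have fs : ∀ k, f (k + 1) = g k (f k) := fun k => rfl
  have hinv : ∀ k, BarInv e F ν l (f k) := by
    intro k
    induction k with
    | zero => exact hs
    | succ k ih => rw [fs]; exact hg1 k (f k) ih
  have hext : ∀ k, Ext (f k) (f (k + 1)) := by
    intro k
    rw [fs]
    exact hg2 k (f k) (hinv k)
  obtain ⟨t, h1, h2, h3, h4, h5⟩ := bar_limit he f (fun k => (hinv k).dat) hext l.length
    (fun k => (hinv k).n)
  refine ⟨t, ⟨h1, ?_, h4, ?_, ?_⟩, ?_, ?_⟩
  · rw [h2, h3]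
    ext y
    simp only [mem_iUnion, mem_image, mem_union, mem_setOf_eq]
    constructor
    · rintro ⟨k, hk⟩
      rw [(hinv k).G] at hk
      obtain ⟨x, hx, hxy⟩ := hk
      refine ⟨x, ?_, hxy⟩
      rcases hx with hx | hx
      · exact Or.inl ⟨k, hx⟩
      · exact Or.inr hx
    · rintro ⟨x, hx, hxy⟩
      rcases hx with ⟨k, hx⟩ | hx
      · refine ⟨k, ?_⟩
        rw [(hinv k).G]
        exact ⟨x, Or.inl hx, hxy⟩
      · refine ⟨0, ?_⟩
        rw [(hinv 0).G]
        exact ⟨x, Or.inr hx, hxy⟩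
  · rw [h3]
    exact iUnion_subset fun k => (hinv k).H
  · intro y hy
    rw [h3, mem_iUnion]
    rintro ⟨k, hk⟩
    exact (hinv k).dis y hy hk
  · exact h5 0
  · intro i
    rcases hg3 i (f i) (hinv i) with h | h
    · left
      rw [h3, mem_iUnion]
      exact ⟨i + 1, h⟩
    · exact Or.inr h

/-- Valid lists. -/
structure BarV (e : Env V E) (F : Set E) (ν : E → E) (l : List E) : Prop where
  nodup : l.Nodup
  mem : ∀ x ∈ l, x ∈ F
  chain : l.IsChain (fun a b => ν a ∈ e.NB b)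

/-- The relation on lists. -/
def BarR (e : Env V E) (F : Set E) (ν : E → E) (l' l : List E) : Prop :=
  ∃ x, l' = x :: l ∧ BarV e F ν l'

theorem bar_wf {e : Env V E} {F : Set E} {ν : E → E}
    (hray : ∀ s : ℕ → E, Function.Injective s → (∀ k, s k ∈ F) →
      (∀ k, ν (s (k + 1)) ∈ e.NB (s k)) → False) : WellFounded (BarR e F ν) := by
  rw [wellFounded_iff_isEmpty_descending_chain]
  refine ⟨fun ⟨f, hf⟩ => ?_⟩
  choose s hs hv using hf
  have hmem : ∀ i k, s i ∈ f (i + 1 + k) := by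
    intro i k
    induction k with
    | zero =>
      rw [add_zero, hs i]
      exact List.mem_cons_self
    | succ k ih =>
      have h1 : i + 1 + (k + 1) = (i + 1 + k) + 1 := by ring
      rw [h1, hs (i + 1 + k)]
      exact List.mem_cons_of_mem _ ih
  have hne : ∀ i j, i < j → s i ≠ s j := by
    intro i j hij heq
    obtain ⟨k, rfl⟩ := Nat.exists_eq_add_of_lt hij
    have h1 := (hv (i + k + 1)).nodup
    rw [hs (i + k + 1), List.nodup_cons] at h1
    apply h1.1
    have h2 := hmem i k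
    have h3 : i + 1 + k = i + k + 1 := by ring
    rw [h3] at h2
    rw [← heq]
    exact h2
  apply hray s
  · intro i j hij
    by_contra hne'
    rcases Nat.lt_or_gt_of_ne hne' with h | h
    · exact hne i j h hij
    · exact hne j i h hij.symm
  · intro k
    apply (hv k).mem
    rw [hs k]
    exact List.mem_cons_self
  · intro k
    have h1 := (hv (k + 1)).chain
    rw [hs (k + 1), hs k, List.isChain_cons_cons] at h1
    exact h1.1

theorem bar_main {e : Env V E} (he : e.Good) {F : Set E}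
    (hFX : ∀ x ∈ F, x ∈ e.X ∧ x ∈ e.B) {ν : E → E} (hν : InjOn ν F)
    (hνN : ∀ x ∈ F, ν x ∈ e.NB x \ e.Iv)
    (hcl : ∀ x ∈ F, e.NB x \ e.Iv ⊆ ν '' F) (hcN : ∀ x ∈ F, (e.NB x).Countable)
    (hray : ∀ s : ℕ → E, Function.Injective s → (∀ k, s k ∈ F) →
      (∀ k, ν (s (k + 1)) ∈ e.NB (s k)) → False) :
    ∀ (L : List E), ∀ (x : E) (l : List E), L = x :: l → BarV e F ν L →
      ∀ s : St E, BarInv e F ν l s → x ∉ s.H →
        ∃ t : St E, BarInv e F ν l t ∧ Ext s t ∧ x ∈ t.H := by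
  intro L
  refine (bar_wf hray).induction (C := fun L => ∀ (x : E) (l : List E), L = x :: l →
    BarV e F ν L → ∀ s : St E, BarInv e F ν l s → x ∉ s.H →
        ∃ t : St E, BarInv e F ν l t ∧ Ext s t ∧ x ∈ t.H) L ?_
  clear L
  intro L ih x l hL hV s hs hxs
  subst hL
  have hxF : x ∈ F := hV.mem x List.mem_cons_self
  have hlF : ∀ y ∈ l, y ∈ F := fun y hy => hV.mem y (List.mem_cons_of_mem _ hy)
  have hxl : x ∉ l := (List.nodup_cons.1 hV.nodup).1
  have hnot : ν x ∉ s.G := by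
    rw [hs.G]
    rintro ⟨y, hy, hyx⟩
    rcases hy with hy | hy
    · have : y = x := hν (hs.H hy) hxF hyx
      exact hxs (this ▸ hy)
    · have : y = x := hν (hlF y hy) hxF hyx
      exact hxl (this ▸ hy)
  obtain ⟨s1, a1, a2, a3, a4, a5⟩ := bar_addY he hs.dat (ν x) hnot
  have hs1 : BarInv e F ν (x :: l) s1 := by
    refine ⟨a1, ?_, ?_, ?_, ?_⟩
    · rw [a2, a3, hs.G, ← image_insert_eq]
      congr 1
      ext y
      simp only [mem_insert_iff, mem_union, mem_setOf_eq, List.mem_cons]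
      tauto
    · rw [a4, hs.n, List.length_cons]
      push_cast
      ring
    · rw [a3]; exact hs.H
    · intro y hy
      rw [a3]
      rcases List.mem_cons.1 hy with rfl | hy
      · exact hxs
      · exact hs.dis y hy
  have hcount : (e.NB x \ e.Iv).Countable := (hcN x hxF).mono sdiff_subset
  obtain ⟨g, hg⟩ := hcount.exists_eq_range ⟨ν x, hνN x hxF⟩
  have hgz : ∀ i, ∃ z ∈ F, ν z = g i := by
    intro i
    have h1 : g i ∈ e.NB x \ e.Iv := by rw [hg]; exact mem_range_self i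
    obtain ⟨z, hz, hz'⟩ := hcl x hxF h1
    exact ⟨z, hz, hz'⟩
  choose z hzF hzg using hgz
  obtain ⟨t1, b1, b2, b3⟩ := bar_run he hs1 z (by
    intro i s' hs'
    by_cases hzi : z i ∈ s'.H ∨ z i ∈ x :: l
    · exact ⟨s', hs', ext_refl s', hzi⟩
    · push Not at hzi
      have hV' : BarV e F ν (z i :: x :: l) := by
        refine ⟨List.nodup_cons.2 ⟨hzi.2, hV.nodup⟩, ?_, ?_⟩
        · intro y hy
          rcases List.mem_cons.1 hy with rfl | hy
          · exact hzF i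
          · exact hV.mem y hy
        · rw [List.isChain_cons_cons]
          refine ⟨?_, hV.chain⟩
          rw [hzg i]
          have h1 : g i ∈ e.NB x \ e.Iv := by rw [hg]; exact mem_range_self i
          exact h1.1
      obtain ⟨t, c1, c2, c3⟩ := ih (z i :: x :: l) ⟨z i, rfl, hV'⟩ (z i) (x :: l) rfl hV' s' hs'
        hzi.1
      exact ⟨t, c1, c2, Or.inl c3⟩)
  have hxt1 : x ∉ t1.H := b1.dis x List.mem_cons_self
  have hN : e.NB x \ e.Iv ⊆ t1.G := by
    intro y hy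
    rw [hg] at hy
    obtain ⟨i, rfl⟩ := hy
    rw [b1.G]
    exact ⟨z i, b3 i, hzg i⟩
  obtain ⟨t, c1, c2, c3, c4, c5⟩ := addX he b1.dat x (hFX x hxF).1 (hFX x hxF).2 hxt1 hN
  refine ⟨t, ⟨c1, ?_, ?_, ?_, ?_⟩, ?_, ?_⟩
  · rw [c2, c3, b1.G]
    congr 1
    ext y
    simp only [mem_insert_iff, mem_union, mem_setOf_eq, List.mem_cons]
    tauto
  · rw [c4, b1.n, List.length_cons]
    push_cast
    ring
  · rw [c3]
    exact insert_subset hxF b1.H
  · intro y hy
    rw [c3]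
    rintro (rfl | h)
    · exact hxl hy
    · exact b1.dis y (List.mem_cons_of_mem _ hy) h
  · exact ext_trans hs.dat.toPDat c1.toPDat
      (ext_trans hs.dat.toPDat b1.dat.toPDat a5 b2) c5
  · rw [c3]
    exact mem_insert _ _

theorem bar {e : Env V E} (he : e.Good) (F : Set E) (hFX : ∀ x ∈ F, x ∈ e.X ∧ x ∈ e.B)
    (hFc : F.Countable) (ν : E → E) (hν : InjOn ν F) (hνN : ∀ x ∈ F, ν x ∈ e.NB x \ e.Iv)
    (hcl : ∀ x ∈ F, e.NB x \ e.Iv ⊆ ν '' F) (hcN : ∀ x ∈ F, (e.NB x).Countable)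
    (hray : ∀ s : ℕ → E, Function.Injective s → (∀ k, s k ∈ F) →
      (∀ k, ν (s (k + 1)) ∈ e.NB (s k)) → False) :
    ∃ s : St E, Dat e s ∧ s.G = ν '' F ∧ s.H = F ∧ s.n = 0 := by
  obtain ⟨s0, h1, h2, h3, h4⟩ := bar_init he
  rcases F.eq_empty_or_nonempty with rfl | hne
  · exact ⟨s0, h1, by rw [h2, image_empty], h3, h4⟩
  obtain ⟨g, hg⟩ := hFc.exists_eq_range hne
  have hgF : ∀ i, g i ∈ F := fun i => by rw [hg]; exact mem_range_self i
  have hs0 : BarInv e F ν [] s0 := by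
    refine ⟨h1, ?_, ?_, ?_, ?_⟩
    · rw [h2, h3]
      simp
    · rw [h4]
      simp
    · rw [h3]
      exact empty_subset _
    · intro y hy
      exact absurd hy (List.not_mem_nil)
  obtain ⟨t, b1, -, b3⟩ := bar_run he hs0 g (by
    intro i s hs
    by_cases hgi : g i ∈ s.H
    · exact ⟨s, hs, ext_refl s, Or.inl hgi⟩
    · have hV : BarV e F ν [g i] := by
        refine ⟨List.nodup_singleton _, ?_, List.isChain_singleton _⟩
        intro y hy
        rw [List.mem_singleton] at hy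
        rw [hy]
        exact hgF i
      obtain ⟨t, c1, c2, c3⟩ := bar_main he hFX hν hνN hcl hcN hray [g i] (g i) [] rfl hV s hs hgi
      exact ⟨t, c1, c2, Or.inl c3⟩)
  have hH : t.H = F := by
    apply subset_antisymm b1.H
    intro y hy
    rw [hg] at hy
    obtain ⟨i, rfl⟩ := hy
    rcases b3 i with h | h
    · exact h
    · exact absurd h (List.not_mem_nil)
  refine ⟨t, b1.dat, ?_, hH, ?_⟩
  · rw [b1.G, hH]
    simp
  · rw [b1.n]
    simp

end Pool.Agent.FLM
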