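import Mathlib

/-!
Rooted digraphs, edge-disjoint paths, the family `GFam`, and the abstract counting environment.

A digraph is given by a type of vertices, a type of edges and two maps: the tail and the head of an edge.
-/

namespace Pool.Agent.FLM

open Set

universe u w

variable {V : Type u} {E : Type w}

/-- The list of edges is a directed walk from `a` to `b`. -/
def IsWalk (tl hd : E → V) : V → List E → V → Prop
  | a, [], b => a = b
  | a, e :: l, b => tl e = a ∧ IsWalk tl hd (hd e) l b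

/-- The list of edges is a directed path from `a` to `b`: a walk that repeats no vertex. -/
def IsPath (tl hd : E → V) (a : V) (l : List E) (b : V) : Prop :=
  IsWalk tl hd a l b ∧ (a :: l.map hd).Nodup

/-- Some set of pairwise edge-disjoint paths from `r` to `v` with all edges in `A` covers `I`. -/
def Linkable (tl hd : E → V) (r : V) (A : Set E) (v : V) (I : Set E) : Prop :=
  ∃ Ps : Set (List E),
    (∀ p ∈ Ps, IsPath tl hd r p v ∧ ∀ e ∈ p, e ∈ A) ∧
    (∀ p ∈ Ps, ∀ q ∈ Ps, p ≠ q → ∀ e ∈ p, e ∉ q) ∧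
    ∀ e ∈ I, ∃ p ∈ Ps, e ∈ p

/-- The family `G` of the subgraph with edge set `A`: the unions of sets `I v` (one for each vertex
`v ≠ r`) of edges of `A` entering `v`, each covered by edge-disjoint paths from `r` to `v` inside `A`. -/
def GFam (tl hd : E → V) (r : V) (A : Set E) : Set (Set E) :=
  {F | ∃ I : V → Set E,
    (∀ v, v ≠ r → I v ⊆ {e | e ∈ A ∧ hd e = v} ∧ Linkable tl hd r A v (I v)) ∧
    F = ⋃ v ∈ {v : V | v ≠ r}, I v}

/-! ### The matching form -/

/-- One step along an edge. -/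
def Step (tl hd : E → V) (a b : V) : Prop := ∃ e, tl e = a ∧ hd e = b

/-- `b` can be reached from `a`. -/
def Anc (tl hd : E → V) (a b : V) : Prop := Relation.ReflTransGen (Step tl hd) a b

/-- The edges whose tail is not the root and whose head reaches `v`. -/
def XS (tl hd : E → V) (r v : V) : Set E := {e | tl e ≠ r ∧ Anc tl hd (hd e) v}

/-- The predecessor map of a family of edge-disjoint paths in `A` from `r` to `v` covering `I`. -/
def IsM (tl hd : E → V) (r : V) (A : Set E) (v : V) (I : Set E) (μ : E → E) : Prop :=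
  InjOn μ (XS tl hd r v) ∧
    ∀ x ∈ XS tl hd r v, μ x ∉ I ∧ (μ x = x ∨ (x ∈ A ∧ μ x ∈ A ∧ hd (μ x) = tl x))

/-- The edges `y` above `b`, not in `I`, which are covered by each linkage of `I` in the whole graph. -/
def ZS (tl hd : E → V) (r b : V) (I : Set E) : Set E :=
  {y | Anc tl hd (hd y) b ∧ y ∉ I ∧
    ∀ μ : E → E, IsM tl hd r univ b I μ → ∃ x ∈ XS tl hd r b, μ x = y}

/-- The edge `x` and all edges entering its tail. -/
def NDS (tl hd : E → V) (x : E) : Set E := {y | y = x ∨ hd y = tl x}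

/-- The edge `x` and all edges of `B` entering its tail. -/
def NBS (tl hd : E → V) (B : Set E) (x : E) : Set E := {y | y = x ∨ (y ∈ B ∧ hd y = tl x)}

/-! ### Matchings in a bipartite graph given by neighbourhoods -/

/-- `ν` matches the set `F` into the set `Q`. -/
def Mat {X : Type u} {Y : Type w} (N : X → Set Y) (F : Set X) (Q : Set Y) (ν : X → Y) : Prop :=
  InjOn ν F ∧ ∀ x ∈ F, ν x ∈ N x ∧ ν x ∈ Q

/-- `F` can be matched into `Q`, and each matching of `F` into `Q` covers all neighbours in `Q`. -/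
def Crit {X : Type u} {Y : Type w} (N : X → Set Y) (F : Set X) (Q : Set Y) : Prop :=
  (∃ ν, Mat N F Q ν) ∧ ∀ μ, Mat N F Q μ → ∀ x ∈ F, ∀ y ∈ N x, y ∈ Q → ∃ x' ∈ F, μ x' = y

/-- An obstruction to matching the set `P` into the set `Q`. -/
def Obs {X : Type u} {Y : Type w} (N : X → Set Y) (P : Set X) (Q : Set Y) : Prop :=
  ∃ (F : Set X) (o : X), F ⊆ P ∧ o ∈ P ∧ o ∉ F ∧ Crit N F Q ∧
    ∀ y ∈ N o, y ∈ Q → ∃ x ∈ F, y ∈ N x

/-! ### The abstract environment for the counting argument -/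

/-- The abstract environment. -/
structure Env (V : Type u) (E : Type w) where
  /-- the edges to be matched -/
  X : Set E
  /-- the subgraph -/
  B : Set E
  /-- the forbidden edges -/
  Iv : Set E
  /-- the neighbourhoods in the whole graph -/
  ND : E → Set E
  /-- the neighbourhoods in the subgraph -/
  NB : E → Set E
  /-- the matching in the whole graph -/
  M : E → E
  /-- the vertices treated before -/
  ok : V → Prop
  /-- the in-star of such a vertex -/
  Ib : V → Set E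
  /-- the edges that every linkage of the in-star covers -/
  Z : V → Set E
  /-- the domain of the linkage -/
  Xb : V → Set E
  /-- the linkage in the subgraph -/
  L : V → E → E

/-- The hypotheses of the counting argument. -/
structure Env.Good (e : Env V E) : Prop where
  M_inj : InjOn e.M e.X
  M_nd : ∀ x ∈ e.X, e.M x ∈ e.ND x
  M_iv : ∀ x ∈ e.X, e.M x ∉ e.Iv
  NB_ND : ∀ x, e.NB x ⊆ e.ND x
  Xb_sub : ∀ b, e.ok b → e.Xb b ⊆ e.X
  L_inj : ∀ b, e.ok b → InjOn (e.L b) (e.Xb b)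
  L_nb : ∀ b, e.ok b → ∀ x ∈ e.Xb b, e.L b x ∈ e.NB x
  Z_cov : ∀ b, e.ok b → ∀ y ∈ e.Z b, ∃ x ∈ e.Xb b, e.L b x = y
  Z3 : ∀ b, e.ok b → ∀ x ∈ e.Xb b, e.L b x ∈ e.Z b → e.ND x ⊆ e.Z b ∪ e.Ib b
  Z4 : ∀ b, e.ok b → ∀ s : ℕ → E,
    (∀ k, s k ∈ e.Xb b ∧ e.L b (s k) ∈ e.Z b ∧ e.L b (s (k + 1)) = e.M (s k)) →
      ∃ k, e.M (s k) = e.L b (s 0)
  Z5 : ∀ b, e.ok b → ∀ y ∈ e.Z b, y ∉ e.Iv
  tail : ∀ x ∈ e.X, x ∈ e.B →
    ∃ b, e.ok b ∧ e.Ib b ⊆ e.NB x \ e.Iv ∧ e.ND x ⊆ e.NB x ∪ e.Z b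

/-- A state of the construction. -/
structure St (E : Type w) where
  /-- the given set of edges to be exposed -/
  G : Set E
  /-- the counted elements -/
  H : Set E
  /-- the count -/
  n : ℤ
  /-- the enlarged set -/
  G' : Set E
  /-- the new matched elements -/
  A : Set E
  /-- their partners -/
  P : E → E

/-- Pre-data: a state satisfying everything except closedness. -/
structure PDat (e : Env V E) (s : St E) : Prop where
  sub : s.G ⊆ s.G'
  AX : s.A ⊆ e.X
  inj : InjOn s.P s.A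
  img : s.P '' s.A = s.G' \ s.G
  nd : ∀ x ∈ s.A, s.P x ∈ e.ND x
  nb : ∀ x ∈ s.A, x ∈ e.B → s.P x ∈ e.NB x
  iv : ∀ x ∈ s.A, s.P x ∉ e.Iv
  ndA : ∀ x ∈ s.A, e.ND x ⊆ s.G'
  HX : ∀ x ∈ s.H, x ∈ e.X ∧ x ∈ e.B
  HN : ∀ x ∈ s.H, e.NB x \ e.Iv ⊆ s.G
  cnt : ∀ F : Finset E, (∀ y ∈ F, y ∈ s.G') →
    (∀ y ∈ F, ∀ x, x ∈ s.H ∨ x ∈ s.A → e.M x ≠ y) → (F.card : ℤ) ≤ s.n

/-- Data: closed pre-data. -/
structure Dat (e : Env V E) (s : St E) : Prop extends PDat e s where
  cl : ∀ b, e.ok b → e.Ib b ⊆ s.G → e.Z b ⊆ s.G'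

/-- The state `t` extends the state `s`. -/
structure Ext (s t : St E) : Prop where
  G : s.G ⊆ t.G
  H : s.H ⊆ t.H
  G' : s.G' ⊆ t.G'
  keep : ∀ x ∈ s.A, x ∈ t.A → t.P x = s.P x
  new : ∀ x ∈ t.A, x ∉ s.A → t.P x ∉ s.G'
  old : ∀ x ∈ s.A, x ∉ t.A → s.P x ∈ t.G

end Pool.Agent.FLM
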