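import Pool.Agent.FLM.Defs

namespace Pool.Agent.FLM

open Set

universe u w

variable {V : Type u} {E : Type w}

theorem zed_three (tl hd : E → V) (r b : V) (I : Set E) (L : E → E)
    (hL : IsM tl hd r univ b I L) (x : E) (hx : x ∈ XS tl hd r b)
    (hLx : L x ∈ ZS tl hd r b I) : NDS tl hd x ⊆ ZS tl hd r b I ∪ I := by
  classical
  intro y' hy'
  by_cases hyI : y' ∈ I
  · exact Or.inr hyI
  refine Or.inl ⟨?_, hyI, ?_⟩
  · rcases hy' with rfl | hy'
    · exact hx.2
    · rw [hy']
      exact Relation.ReflTransGen.head ⟨x, rfl, rfl⟩ hx.2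
  intro μ hμ
  by_contra hmiss
  push Not at hmiss
  obtain ⟨z₁, hz₁, hμz₁⟩ := hLx.2.2 μ hμ
  let R : E → E → Prop := fun z w => z ∈ XS tl hd r b ∧ w ∈ XS tl hd r b ∧ μ w = L z
  have hyy : y' ≠ L x := fun h => hmiss z₁ hz₁ (hμz₁.trans h.symm)
  by_cases hxS : Relation.ReflTransGen R z₁ x
  · let ρ : E → E := fun z =>
      if z = x then y' else if Relation.ReflTransGen R z x then L z else μ z
    have hρx : ρ x = y' := if_pos rfl
    have hρT : ∀ z, z ≠ x → Relation.ReflTransGen R z x → ρ z = L z := by
      intro z h1 h2
      show (if z = x then y' else if Relation.ReflTransGen R z x then L z else μ z) = L z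
      rw [if_neg h1, if_pos h2]
    have hρN : ∀ z, ¬ Relation.ReflTransGen R z x → ρ z = μ z := by
      intro z h2
      have h1 : z ≠ x := fun h => h2 (h ▸ Relation.ReflTransGen.refl)
      show (if z = x then y' else if Relation.ReflTransGen R z x then L z else μ z) = μ z
      rw [if_neg h1, if_neg h2]
    have hsucc : ∀ z, z ≠ x → Relation.ReflTransGen R z x →
        ∃ w, R z w ∧ Relation.ReflTransGen R w x := by
      intro z h1 h2
      rcases Relation.ReflTransGen.cases_head h2 with h | ⟨w, h3, h4⟩
      · exact absurd h h1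
      · exact ⟨w, h3, h4⟩
    have hρ : IsM tl hd r univ b I ρ := by
      refine ⟨?_, ?_⟩
      · have key : ∀ z ∈ XS tl hd r b, ∀ w ∈ XS tl hd r b, ρ z = ρ w →
            Relation.ReflTransGen R z x → z = w := by
          intro z hz w hw h hzT
          by_cases hzx : z = x
          · by_cases hwx : w = x
            · rw [hzx, hwx]
            · rw [hzx, hρx] at h
              by_cases hwT : Relation.ReflTransGen R w x
              · obtain ⟨w', h1, -⟩ := hsucc w hwx hwT
                rw [hρT w hwx hwT] at h
                exact absurd (h1.2.2.trans h.symm) (hmiss w' h1.2.1)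
              · rw [hρN w hwT] at h
                exact absurd h.symm (hmiss w hw)
          · obtain ⟨z', h1, h2⟩ := hsucc z hzx hzT
            rw [hρT z hzx hzT] at h
            by_cases hwx : w = x
            · rw [hwx, hρx] at h
              exact absurd (h1.2.2.trans h) (hmiss z' h1.2.1)
            · by_cases hwT : Relation.ReflTransGen R w x
              · rw [hρT w hwx hwT] at h
                exact hL.1 hz hw h
              · rw [hρN w hwT] at h
                have h3 : z' = w := hμ.1 h1.2.1 hw (h1.2.2.trans h)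
                exact absurd (h3 ▸ h2) hwT
        intro z hz w hw h
        by_cases hzT : Relation.ReflTransGen R z x
        · exact key z hz w hw h hzT
        · by_cases hwT : Relation.ReflTransGen R w x
          · exact (key w hw z hz h.symm hwT).symm
          · rw [hρN z hzT, hρN w hwT] at h
            exact hμ.1 hz hw h
      · intro z hz
        by_cases hzx : z = x
        · rw [hzx, hρx]
          refine ⟨hyI, ?_⟩
          rcases hy' with h | h
          · exact Or.inl h
          · exact Or.inr ⟨mem_univ _, mem_univ _, h⟩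
        · by_cases hzT : Relation.ReflTransGen R z x
          · rw [hρT z hzx hzT]
            exact hL.2 z hz
          · rw [hρN z hzT]
            exact hμ.2 z hz
    obtain ⟨z, hz, hρz⟩ := hLx.2.2 ρ hρ
    by_cases hzx : z = x
    · rw [hzx, hρx] at hρz
      exact hyy hρz
    · by_cases hzT : Relation.ReflTransGen R z x
      · rw [hρT z hzx hzT] at hρz
        exact hzx (hL.1 hz hx hρz)
      · rw [hρN z hzT] at hρz
        have h1 : z = z₁ := hμ.1 hz hz₁ (hρz.trans hμz₁.symm)
        rw [h1] at hzT
        exact hzT hxS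
  · let ρ : E → E := fun z => if Relation.ReflTransGen R z₁ z then L z else μ z
    have hρS : ∀ z, Relation.ReflTransGen R z₁ z → ρ z = L z := fun z h => if_pos h
    have hρN : ∀ z, ¬ Relation.ReflTransGen R z₁ z → ρ z = μ z := fun z h => if_neg h
    have hρ : IsM tl hd r univ b I ρ := by
      refine ⟨?_, ?_⟩
      · have key : ∀ z ∈ XS tl hd r b, ∀ w ∈ XS tl hd r b, ρ z = ρ w →
            Relation.ReflTransGen R z₁ z → z = w := by
          intro z hz w hw h hzS
          rw [hρS z hzS] at h
          by_cases hwS : Relation.ReflTransGen R z₁ w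
          · rw [hρS w hwS] at h
            exact hL.1 hz hw h
          · rw [hρN w hwS] at h
            exact absurd (hzS.tail ⟨hz, hw, h.symm⟩) hwS
        intro z hz w hw h
        by_cases hzS : Relation.ReflTransGen R z₁ z
        · exact key z hz w hw h hzS
        · by_cases hwS : Relation.ReflTransGen R z₁ w
          · exact (key w hw z hz h.symm hwS).symm
          · rw [hρN z hzS, hρN w hwS] at h
            exact hμ.1 hz hw h
      · intro z hz
        by_cases hzS : Relation.ReflTransGen R z₁ z
        · rw [hρS z hzS]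
          exact hL.2 z hz
        · rw [hρN z hzS]
          exact hμ.2 z hz
    obtain ⟨z, hz, hρz⟩ := hLx.2.2 ρ hρ
    by_cases hzS : Relation.ReflTransGen R z₁ z
    · rw [hρS z hzS] at hρz
      have h1 : z = x := hL.1 hz hx hρz
      rw [h1] at hzS
      exact hxS hzS
    · rw [hρN z hzS] at hρz
      have h1 : z = z₁ := hμ.1 hz hz₁ (hρz.trans hμz₁.symm)
      rw [h1] at hzS
      exact hzS Relation.ReflTransGen.refl

theorem zed_four (tl hd : E → V) (r b : V) (I : Set E) (L M : E → E)
    (hL : IsM tl hd r univ b I L) (s : ℕ → E)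
    (hs : ∀ k, s k ∈ XS tl hd r b ∧ L (s k) ∈ ZS tl hd r b I ∧ L (s (k + 1)) = M (s k))
    (hM : ∀ k, M (s k) = s k ∨ hd (M (s k)) = tl (s k)) (hMinj : InjOn M (Set.range s)) :
    ∃ k, M (s k) = L (s 0) := by
  classical
  by_contra hno
  push Not at hno
  let ρ : E → E := fun z => if z ∈ Set.range s then M z else L z
  have hρS : ∀ z, z ∈ Set.range s → ρ z = M z := fun z h => if_pos h
  have hρN : ∀ z, z ∉ Set.range s → ρ z = L z := fun z h => if_neg h
  have hρ : IsM tl hd r univ b I ρ := by
    refine ⟨?_, ?_⟩
    · have key : ∀ z ∈ XS tl hd r b, ∀ w ∈ XS tl hd r b, ρ z = ρ w → z ∈ Set.range s → z = w := by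
        intro z hz w hw h hzS
        rw [hρS z hzS] at h
        by_cases hwS : w ∈ Set.range s
        · rw [hρS w hwS] at h
          exact hMinj hzS hwS h
        · rw [hρN w hwS] at h
          obtain ⟨i, rfl⟩ := hzS
          rw [← (hs i).2.2] at h
          have h1 := hL.1 (hs (i + 1)).1 hw h
          exact absurd ⟨i + 1, h1⟩ hwS
      intro z hz w hw h
      by_cases hzS : z ∈ Set.range s
      · exact key z hz w hw h hzS
      · by_cases hwS : w ∈ Set.range s
        · exact (key w hw z hz h.symm hwS).symm
        · rw [hρN z hzS, hρN w hwS] at h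
          exact hL.1 hz hw h
    · intro z hz
      by_cases hzS : z ∈ Set.range s
      · rw [hρS z hzS]
        obtain ⟨i, rfl⟩ := hzS
        refine ⟨?_, ?_⟩
        · rw [← (hs i).2.2]
          exact (hL.2 _ (hs (i + 1)).1).1
        · rcases hM i with h | h
          · exact Or.inl h
          · exact Or.inr ⟨mem_univ _, mem_univ _, h⟩
      · rw [hρN z hzS]
        exact hL.2 z hz
  obtain ⟨z, hz, hρz⟩ := (hs 0).2.1.2.2 ρ hρ
  by_cases hzS : z ∈ Set.range s
  · rw [hρS z hzS] at hρz
    obtain ⟨i, rfl⟩ := hzS
    exact hno i hρz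
  · rw [hρN z hzS] at hρz
    exact hzS ⟨0, (hL.1 hz (hs 0).1 hρz).symm⟩

end Pool.Agent.FLM
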