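import Pool.Agent.FLM.TB
import Pool.Agent.FLM.Zed

namespace Pool.Agent.FLM

open Set

universe u w

variable {V : Type u} {E : Type w}

theorem isM_univ {tl hd : E → V} {r : V} {A : Set E} {v : V} {I : Set E} {μ : E → E}
    (h : IsM tl hd r A v I μ) : IsM tl hd r univ v I μ := by
  refine ⟨h.1, fun x hx => ⟨(h.2 x hx).1, ?_⟩⟩
  rcases (h.2 x hx).2 with h1 | ⟨_, _, h3⟩
  · exact Or.inl h1
  · exact Or.inr ⟨mem_univ _, mem_univ _, h3⟩

theorem env_good (tl hd : E → V) (r : V)
    (hac : ∀ a, ¬ Relation.TransGen (Step tl hd) a a) (hwf : WellFounded (Step tl hd))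
    (B : Set E) (v : V)
    (hmax : ∀ e, e ∉ B → ¬ Linkable tl hd r univ (hd e) (insert e {x | x ∈ B ∧ hd x = hd e}))
    (M : E → E) (hM : IsM tl hd r univ v {x | x ∈ B ∧ hd x = v} M)
    (L : V → E → E)
    (hL : ∀ b, b ≠ r → Relation.TransGen (Step tl hd) b v →
      IsM tl hd r B b {x | x ∈ B ∧ hd x = b} (L b)) :
    (Env.mk (V := V) (E := E) (XS tl hd r v) B {x | x ∈ B ∧ hd x = v} (NDS tl hd) (NBS tl hd B) M
      (fun b => b ≠ r ∧ Relation.TransGen (Step tl hd) b v) (fun b => {x | x ∈ B ∧ hd x = b})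
      (fun b => ZS tl hd r b {x | x ∈ B ∧ hd x = b}) (fun b => XS tl hd r b) L).Good := by
  have hM2 : ∀ x ∈ XS tl hd r v, M x = x ∨ hd (M x) = tl x := by
    intro x hx
    rcases (hM.2 x hx).2 with h1 | ⟨_, _, h3⟩
    · exact Or.inl h1
    · exact Or.inr h3
  have hXb : ∀ b, b ≠ r ∧ Relation.TransGen (Step tl hd) b v →
      XS tl hd r b ⊆ XS tl hd r v := by
    intro b hb x hx
    exact ⟨hx.1, hx.2.trans hb.2.to_reflTransGen⟩
  refine
    { M_inj := hM.1
      M_nd := hM2
      M_iv := fun x hx => (hM.2 x hx).1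
      NB_ND := ?_
      Xb_sub := hXb
      L_inj := fun b hb => (hL b hb.1 hb.2).1
      L_nb := ?_
      Z_cov := fun b hb y hy => hy.2.2 (L b) (isM_univ (hL b hb.1 hb.2))
      Z3 := fun b hb x hx hLx =>
        zed_three tl hd r b _ (L b) (isM_univ (hL b hb.1 hb.2)) x hx hLx
      Z4 := ?_
      Z5 := ?_
      tail := ?_ }
  · intro x y hy
    rcases hy with h | h
    · exact Or.inl h
    · exact Or.inr h.2
  · intro b hb x hx
    rcases ((hL b hb.1 hb.2).2 x hx).2 with h1 | ⟨_, h2, h3⟩
    · exact Or.inl h1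
    · exact Or.inr ⟨h2, h3⟩
  · intro b hb s hs
    refine zed_four tl hd r b _ (L b) M (isM_univ (hL b hb.1 hb.2)) s hs ?_ ?_
    · intro k
      exact hM2 _ (hXb b hb (hs k).1)
    · refine hM.1.mono ?_
      rintro _ ⟨k, rfl⟩
      exact hXb b hb (hs k).1
  · intro b hb y hy hy'
    have h1 : hd y = v := hy'.2
    have h2 : Anc tl hd (hd y) b := hy.1
    rw [h1] at h2
    exact hac v (Relation.TransGen.trans_right h2 hb.2)
  · intro x hx hxB
    have hst : Step tl hd (tl x) (hd x) := ⟨x, rfl, rfl⟩
    have htr : Relation.TransGen (Step tl hd) (tl x) v := Relation.TransGen.head' hst hx.2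
    refine ⟨tl x, ⟨hx.1, htr⟩, ?_, ?_⟩
    · intro y hy
      refine ⟨Or.inr hy, ?_⟩
      intro hy'
      have h1 : hd y = v := hy'.2
      have h2 : hd y = tl x := hy.2
      rw [← h2, h1] at htr
      exact hac v htr
    · intro y hy
      by_cases hyB : y ∈ B
      · left
        rcases hy with h | h
        · exact Or.inl h
        · exact Or.inr ⟨hyB, h⟩
      · rcases hy with h | h
        · left
          exact Or.inl h
        · right
          refine ⟨?_, fun h' => hyB h'.1, ?_⟩
          · rw [h]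
            exact Relation.ReflTransGen.refl
          · intro μ hμ
            by_contra hcon
            push Not at hcon
            apply hmax y hyB
            rw [h]
            refine isM_to_linkable tl hd r hac hwf univ (tl x) _ ?_ μ ⟨hμ.1, ?_⟩
            · intro z hz
              rcases hz with rfl | hz
              · exact ⟨mem_univ _, h⟩
              · exact ⟨mem_univ _, hz.2⟩
            · intro z hz
              refine ⟨?_, (hμ.2 z hz).2⟩
              rintro (h' | h')
              · exact hcon z hz h'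
              · exact (hμ.2 z hz).1 h'

end Pool.Agent.FLM
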