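import Pool.Agent.FLM.PSB

namespace Pool.Agent.FLM

open Set

universe u w

section PSM

variable {X : Type u} {Y : Type w} {N : X → Set Y}

private theorem PSM_mono {A B : Set X} {Q : Set Y} {f : X → Y} (h : Mat N B Q f) (hAB : A ⊆ B) :
    Mat N A Q f :=
  ⟨h.1.mono hAB, fun x hx => h.2 x (hAB hx)⟩

open Classical in
private theorem PSM_mix {A B : Set X} {Q : Set Y} {f g : X → Y} (hf : Mat N A Q f)
    (hg : Mat N B Q g) (hd : ∀ x ∈ A, ∀ x' ∈ B, x' ∉ A → f x ≠ g x') :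
    Mat N (A ∪ B) Q (fun x => if x ∈ A then f x else g x) := by
  constructor
  · intro x hx x' hx' hxx'
    simp only at hxx'
    by_cases h : x ∈ A <;> by_cases h' : x' ∈ A
    · rw [if_pos h, if_pos h'] at hxx'
      exact hf.1 h h' hxx'
    · rw [if_pos h, if_neg h'] at hxx'
      exact absurd hxx' (hd x h x' (hx'.resolve_left h') h')
    · rw [if_neg h, if_pos h'] at hxx'
      exact absurd hxx'.symm (hd x' h' x (hx.resolve_left h) h)
    · rw [if_neg h, if_neg h'] at hxx'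
      exact hg.1 (hx.resolve_left h) (hx'.resolve_left h') hxx'
  · intro x hx
    by_cases h : x ∈ A
    · simp only [if_pos h]
      exact hf.2 x h
    · simp only [if_neg h]
      exact hg.2 x (hx.resolve_left h)

private theorem PSM_obs_mono {P P' : Set X} {Q : Set Y} (h : P' ⊆ P) (ho : Obs N P' Q) :
    Obs N P Q := by
  obtain ⟨F, o, h1, h2, h3⟩ := ho
  exact ⟨F, o, h1.trans h, h h2, h3⟩

/-- the graph of `ν` on `F` -/
private def PSM_G (F : Set X) (ν : X → Y) : Set (X × Y) := {a | a.1 ∈ F ∧ a.2 = ν a.1}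

private theorem PSM_zorn (g0 : X → Y) (P : Set X) (Q : Set Y) (h : ¬ Obs N P Q) :
    ∃ (F : Set X) (ν : X → Y), F ⊆ P ∧ Mat N F Q ν ∧
      (∀ F', F' ⊆ P \ F → Crit N F' (Q \ ν '' F) → F' = ∅) ∧
      ∀ x ∈ P \ F, ∃ y ∈ N x, y ∈ Q \ ν '' F := by
  classical
  set S : Set (Set (X × Y)) := {G | ∃ (F : Set X) (ν : X → Y), F ⊆ P ∧ Mat N F Q ν ∧
    Crit N F Q ∧ G = PSM_G F ν} with hS
  have hz : ∃ m, Maximal (fun G => G ∈ S) m := by
    apply zorn_subset
    intro c hcS hc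
    -- the union of the chain
    have hfun : ∀ x y y', (x, y) ∈ ⋃₀ c → (x, y') ∈ ⋃₀ c → y = y' := by
      rintro x y y' ⟨G, hG, hxG⟩ ⟨G', hG', hxG'⟩
      have key : ∀ G ∈ c, (x, y) ∈ G → (x, y') ∈ G → y = y' := by
        intro G hG h1 h2
        obtain ⟨F, ν, _, _, _, rfl⟩ := hcS hG
        exact h1.2.trans h2.2.symm
      rcases hc.total hG hG' with hle | hle
      · exact key G' hG' (hle hxG) hxG'
      · exact key G hG hxG (hle hxG')
    have hinj : ∀ x x' y, (x, y) ∈ ⋃₀ c → (x', y) ∈ ⋃₀ c → x = x' := by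
      rintro x x' y ⟨G, hG, hxG⟩ ⟨G', hG', hxG'⟩
      have key : ∀ G ∈ c, (x, y) ∈ G → (x', y) ∈ G → x = x' := by
        intro G hG h1 h2
        obtain ⟨F, ν, _, hm, _, rfl⟩ := hcS hG
        exact hm.1 h1.1 h2.1 (h1.2.symm.trans h2.2)
      rcases hc.total hG hG' with hle | hle
      · exact key G' hG' (hle hxG) hxG'
      · exact key G hG hxG (hle hxG')
    have hex : ∀ x, ∃ z, ∀ y, (x, y) ∈ ⋃₀ c → y = z := by
      intro x
      by_cases hx : ∃ y, (x, y) ∈ ⋃₀ c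
      · obtain ⟨z, hz⟩ := hx
        exact ⟨z, fun y hy => hfun x y z hy hz⟩
      · exact ⟨g0 x, fun y hy => absurd ⟨y, hy⟩ hx⟩
    choose ν hν using hex
    refine ⟨⋃₀ c, ⟨{x | (x, ν x) ∈ ⋃₀ c}, ν, ?_, ?_, ?_, ?_⟩, fun G hG => subset_sUnion_of_mem hG⟩
    · rintro x ⟨G, hG, hx⟩
      obtain ⟨F, ν', h1, _, _, rfl⟩ := hcS hG
      exact h1 hx.1
    · constructor
      · intro x hx x' hx' he
        have hx2 : (x', ν x) ∈ ⋃₀ c := he ▸ hx'
        exact hinj x x' _ hx hx2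
      · rintro x ⟨G, hG, hx⟩
        obtain ⟨F, ν', _, h1, _, rfl⟩ := hcS hG
        have := h1.2 x hx.1
        rw [← hx.2] at this
        exact this
    · refine ⟨⟨ν, ?_⟩, ?_⟩
      · constructor
        · intro x hx x' hx' he
          have hx2 : (x', ν x) ∈ ⋃₀ c := he ▸ hx'
          exact hinj x x' _ hx hx2
        · rintro x ⟨G, hG, hx⟩
          obtain ⟨F, ν', _, h1, _, rfl⟩ := hcS hG
          have := h1.2 x hx.1
          rw [← hx.2] at this
          exact this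
      · rintro μ hμ x ⟨G, hG, hx⟩ y hy hyQ
        obtain ⟨F, ν', _, _, h1, rfl⟩ := hcS hG
        have hF : F ⊆ {x | (x, ν x) ∈ ⋃₀ c} := by
          intro x' hx'
          have h2 : (x', ν' x') ∈ ⋃₀ c := ⟨_, hG, hx', rfl⟩
          have h3 := hν x' _ h2
          rw [mem_ofPred_eq, ← h3]
          exact h2
        obtain ⟨x', hx', he⟩ := h1.2 μ (PSM_mono hμ hF) x hx.1 y hy hyQ
        exact ⟨x', hF hx', he⟩
    · ext ⟨x, y⟩
      constructor
      · intro hxy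
        have h1 := hν x y hxy
        exact ⟨h1 ▸ hxy, h1⟩
      · rintro ⟨h1, h2⟩
        simp only at h2
        rw [h2]
        exact h1
  obtain ⟨m, ⟨F, ν, hFP, hν, hCr, rfl⟩, hmax⟩ := hz
  refine ⟨F, ν, hFP, hν, ?_, ?_⟩
  · rintro F' hF' ⟨⟨ν', hν'⟩, hC'⟩
    by_contra hne
    obtain ⟨x0, hx0⟩ := nonempty_iff_ne_empty.2 hne
    have hν'Q : Mat N F' Q ν' := ⟨hν'.1, fun x hx => ⟨(hν'.2 x hx).1, (hν'.2 x hx).2.1⟩⟩
    have hmix := PSM_mix hν hν'Q (by
      intro x hx x' hx' _ heq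
      exact (hν'.2 x' hx').2.2 ⟨x, hx, heq⟩)
    have hin : PSM_G (F ∪ F') (fun x => if x ∈ F then ν x else ν' x) ∈ S := by
      refine ⟨F ∪ F', _, union_subset hFP fun x hx => (hF' hx).1, hmix, ⟨⟨_, hmix⟩, ?_⟩, rfl⟩
      intro μ hμ
      have hμF : Mat N F Q μ := PSM_mono hμ subset_union_left
      have hF1 : ∀ x ∈ F, ∀ y ∈ N x, y ∈ Q → ∃ x' ∈ F, μ x' = y := hCr.2 μ hμF
      have hμF' : Mat N F' (Q \ ν '' F) μ := by
        refine ⟨hμ.1.mono subset_union_right, fun x hx => ⟨(hμ.2 x (Or.inr hx)).1,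
          (hμ.2 x (Or.inr hx)).2, ?_⟩⟩
        rintro ⟨x1, hx1, he1⟩
        obtain ⟨x2, hx2, he2⟩ := hF1 x1 hx1 (ν x1) (hν.2 x1 hx1).1 (hν.2 x1 hx1).2
        have h3 := hμ.1 (Or.inl hx2) (Or.inr hx) (he2.trans he1)
        exact (hF' hx).2 (h3 ▸ hx2)
      rintro x (hx | hx) y hy hyQ
      · obtain ⟨x', hx', he⟩ := hF1 x hx y hy hyQ
        exact ⟨x', Or.inl hx', he⟩
      · by_cases hyF : y ∈ ν '' F
        · obtain ⟨x1, hx1, rfl⟩ := hyF
          obtain ⟨x', hx', he⟩ := hF1 x1 hx1 (ν x1) (hν.2 x1 hx1).1 hyQ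
          exact ⟨x', Or.inl hx', he⟩
        · obtain ⟨x', hx', he⟩ := hC' μ hμF' x hx y hy ⟨hyQ, hyF⟩
          exact ⟨x', Or.inr hx', he⟩
    have hle : PSM_G F ν ⊆ PSM_G (F ∪ F') (fun x => if x ∈ F then ν x else ν' x) := by
      rintro ⟨x, y⟩ ⟨h1, h2⟩
      refine ⟨Or.inl h1, ?_⟩
      simp only at h1 h2 ⊢
      rw [if_pos h1]
      exact h2
    have hge := hmax hin hle
    have hx0G : (x0, if x0 ∈ F then ν x0 else ν' x0) ∈
        PSM_G (F ∪ F') (fun x => if x ∈ F then ν x else ν' x) := ⟨Or.inr hx0, rfl⟩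
    exact (hF' hx0).2 (hge hx0G).1
  · intro x hx
    by_contra hcon
    apply h
    refine ⟨F, x, hFP, hx.1, hx.2, hCr, fun y hy hyQ => ?_⟩
    by_contra hcon2
    refine hcon ⟨y, hy, hyQ, ?_⟩
    rintro ⟨x1, hx1, rfl⟩
    exact hcon2 ⟨x1, hx1, (hν.2 x1 hx1).1⟩

/-- good finite stages -/
private def PSM_Good (N : X → Set Y) (P : Set X) (s : Set X × (X → Y)) : Prop :=
  s.1 ⊆ P ∧ Mat N s.1 univ s.2 ∧ ¬ Obs N (P \ s.1) (univ \ s.2 '' s.1)

private theorem PSM_step (P : Set X) (s : Set X × (X → Y)) (hs : PSM_Good N P s) (x : X)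
    (hx : x ∈ P) : ∃ t : Set X × (X → Y), PSM_Good N P t ∧ s.1 ⊆ t.1 ∧
      (∀ z ∈ s.1, t.2 z = s.2 z) ∧ x ∈ t.1 := by
  classical
  obtain ⟨D, ν⟩ := s
  obtain ⟨hD, hν, hobs⟩ := hs
  simp only at hD hν hobs ⊢
  obtain ⟨F, μ, hF, hμ, ha, hb⟩ := PSM_zorn ν _ _ hobs
  have hμU : Mat N F univ μ := ⟨hμ.1, fun x hx => ⟨(hμ.2 x hx).1, mem_univ _⟩⟩
  have hmix := PSM_mix hν hμU (by
    intro x hx x' hx' _ heq
    exact (hμ.2 x' hx').2.2 ⟨x, hx, heq⟩)
  set ν1 : X → Y := fun x => if x ∈ D then ν x else μ x with hν1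
  have hν1D : ∀ z ∈ D, ν1 z = ν z := fun z hz => if_pos hz
  have hν1F : ∀ z ∈ F, ν1 z = μ z := fun z hz => if_neg (hF hz).2
  have himg : ν1 '' (D ∪ F) = ν '' D ∪ μ '' F := by
    rw [image_union, image_congr hν1D, image_congr hν1F]
  have hP1 : P \ (D ∪ F) = (P \ D) \ F := by
    ext z
    simp only [mem_sdiff, mem_union]
    tauto
  have hQ1 : univ \ ν1 '' (D ∪ F) = (univ \ ν '' D) \ μ '' F := by
    rw [himg]
    ext z
    simp only [mem_sdiff, mem_union]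
    tauto
  by_cases hxD : x ∈ D
  · exact ⟨(D, ν), ⟨hD, hν, hobs⟩, subset_rfl, fun z _ => rfl, hxD⟩
  by_cases hxF : x ∈ F
  · refine ⟨(D ∪ F, ν1), ⟨union_subset hD fun z hz => (hF hz).1, hmix, ?_⟩, subset_union_left,
      hν1D, Or.inr hxF⟩
    simp only
    rw [hP1, hQ1]
    rintro ⟨F', o, h1, h2, h3, h4, h5⟩
    have h6 := ha F' h1 h4
    obtain ⟨y, hy, hyQ⟩ := hb o h2
    obtain ⟨z, hz, _⟩ := h5 y hy hyQ
    rw [h6] at hz
    exact hz
  · obtain ⟨y, hy, hyQ⟩ := hb x ⟨⟨hx, hxD⟩, hxF⟩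
    have hBs : Mat N {x} univ (fun _ => y) := by
      constructor
      · intro a ha a' ha' _
        rw [mem_singleton_iff.1 ha, mem_singleton_iff.1 ha']
      · intro a ha
        rw [mem_singleton_iff.1 ha]
        exact ⟨hy, mem_univ _⟩
    have hynot : y ∉ ν1 '' (D ∪ F) := by
      have : y ∈ univ \ ν1 '' (D ∪ F) := hQ1 ▸ hyQ
      exact this.2
    have hmix2 := PSM_mix hmix hBs (by
      intro z hz x' _ _ heq
      exact hynot ⟨z, hz, heq⟩)
    set ν2 : X → Y := fun z => @ite Y (z ∈ D ∪ F) (Classical.propDecidable _) (ν1 z) y with hν2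
    have hxDF : x ∉ D ∪ F := fun h => h.elim hxD hxF
    have hν2a : ∀ z ∈ D ∪ F, ν2 z = ν1 z := fun z hz => if_pos hz
    have hν2b : ν2 x = y := if_neg hxDF
    refine ⟨((D ∪ F) ∪ {x}, ν2), ⟨?_, hmix2, ?_⟩, subset_union_left.trans subset_union_left, ?_,
      Or.inr rfl⟩
    · refine union_subset (union_subset hD fun z hz => (hF hz).1) ?_
      intro z hz
      rw [mem_singleton_iff.1 hz]
      exact hx
    · simp only
      have himg2 : ν2 '' ((D ∪ F) ∪ {x}) = ν1 '' (D ∪ F) ∪ {y} := by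
        rw [image_union, image_congr hν2a, image_singleton, hν2b]
      have hQ2 : univ \ ν2 '' ((D ∪ F) ∪ {x}) = ((univ \ ν '' D) \ μ '' F) \ {y} := by
        rw [himg2, ← hQ1]
        ext z
        simp only [mem_sdiff, mem_union]
        tauto
      rw [hQ2]
      intro ho
      refine psB N ((P \ D) \ F) ((univ \ ν '' D) \ μ '' F) ha hb y hyQ (PSM_obs_mono ?_ ho)
      rintro z ⟨h1, h2⟩
      exact ⟨⟨h1, fun h => h2 (Or.inl (Or.inl h))⟩, fun h => h2 (Or.inl (Or.inr h))⟩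
    · intro z hz
      simp only
      rw [hν2a z (Or.inl hz), hν1D z hz]

end PSM

/-- The extra argument `g0` only excludes the case that there is no function at all. -/
theorem ps {X : Type u} {Y : Type w} (N : X → Set Y) (P : Set X) (hP : P.Countable) (g0 : X → Y)
    (h : ¬ Obs N P univ) : ∃ g : X → Y, InjOn g P ∧ ∀ x ∈ P, g x ∈ N x := by
  classical
  rcases P.eq_empty_or_nonempty with hPe | hPn
  · refine ⟨g0, ?_, ?_⟩
    · rw [hPe]
      exact injOn_empty _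
    · intro x hx
      rw [hPe] at hx
      exact absurd hx (notMem_empty x)
  obtain ⟨f, hf⟩ := hP.exists_eq_range hPn
  have hfP : ∀ n, f n ∈ P := fun n => hf ▸ mem_range_self n
  have h0 : PSM_Good N P (∅, g0) := by
    refine ⟨empty_subset _, ⟨injOn_empty _, fun x hx => absurd hx (notMem_empty x)⟩, ?_⟩
    simp only [sdiff_empty, image_empty]
    exact h
  choose nx hnx using fun (s : {s : Set X × (X → Y) // PSM_Good N P s}) (n : ℕ) =>
    PSM_step P s.1 s.2 (f n) (hfP n)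
  let st : ℕ → {s : Set X × (X → Y) // PSM_Good N P s} := fun n =>
    Nat.rec ⟨(∅, g0), h0⟩ (fun n s => ⟨nx s n, (hnx s n).1⟩) n
  have hst : ∀ n, (st (n + 1)).1 = nx (st n) n := fun n => rfl
  have hmono1 : ∀ n, (st n).1.1 ⊆ (st (n + 1)).1.1 := by
    intro n
    rw [hst]
    exact (hnx (st n) n).2.1
  have hagree1 : ∀ n, ∀ z ∈ (st n).1.1, (st (n + 1)).1.2 z = (st n).1.2 z := by
    intro n
    rw [hst]
    exact (hnx (st n) n).2.2.1
  have hcov : ∀ n, f n ∈ (st (n + 1)).1.1 := by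
    intro n
    rw [hst]
    exact (hnx (st n) n).2.2.2
  have hmono : ∀ n m, n ≤ m → (st n).1.1 ⊆ (st m).1.1 := by
    intro n m hnm
    induction hnm with
    | refl => exact subset_rfl
    | step _ ih => exact ih.trans (hmono1 _)
  have hagree : ∀ n m, n ≤ m → ∀ z ∈ (st n).1.1, (st m).1.2 z = (st n).1.2 z := by
    intro n m hnm
    induction hnm with
    | refl => intro z _; rfl
    | step hle ih =>
      intro z hz
      rw [← ih z hz]
      exact hagree1 _ z (hmono n _ hle hz)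
  have hex : ∀ x, ∃ n, x ∈ P → x ∈ (st n).1.1 := by
    intro x
    by_cases hx : x ∈ P
    · have : x ∈ range f := hf ▸ hx
      obtain ⟨n, rfl⟩ := this
      exact ⟨n + 1, fun _ => hcov n⟩
    · exact ⟨0, fun h => absurd h hx⟩
  choose k hk using hex
  refine ⟨fun x => (st (k x)).1.2 x, ?_, ?_⟩
  · intro x hx x' hx' he
    simp only at he
    rw [← hagree (k x) (max (k x) (k x')) (le_max_left _ _) x (hk x hx),
      ← hagree (k x') (max (k x) (k x')) (le_max_right _ _) x' (hk x' hx')] at he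
    exact (st (max (k x) (k x'))).2.2.1.1 (hmono _ _ (le_max_left _ _) (hk x hx))
      (hmono _ _ (le_max_right _ _) (hk x' hx')) he
  · intro x hx
    exact ((st (k x)).2.2.1.2 x (hk x hx)).1

end Pool.Agent.FLM
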