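import Pool.Agent.FLM.Bar
import Pool.Agent.FLM.PSM

namespace Pool.Agent.FLM

open Set

universe u w

variable {V : Type u} {E : Type w}

theorem no_obs {e : Env V E} (he : e.Good) (P : Set E) (hP : P.Countable)
    (hPX : ∀ x ∈ P, x ∈ e.X ∧ x ∈ e.B) (hN : ∀ x ∈ P, (e.NB x).Countable) :
    ¬ Obs (fun x => e.NB x \ e.Iv) P univ := by
  rintro ⟨F, o, hFP, hoP, hoF, ⟨⟨ν, hν1, hν2⟩, hcrit⟩, hNo⟩
  have hcl : ∀ x ∈ F, e.NB x \ e.Iv ⊆ ν '' F := by
    intro x hx y hy
    obtain ⟨x', hx', rfl⟩ := hcrit ν ⟨hν1, hν2⟩ x hx y hy (mem_univ _)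
    exact ⟨x', hx', rfl⟩
  have hray : ∀ s : ℕ → E, Function.Injective s → (∀ k, s k ∈ F) →
      (∀ k, ν (s (k + 1)) ∈ e.NB (s k)) → False := by
    intro s hs hsF hsN
    classical
    let μ : E → E := fun x => if h : ∃ k, s k = x then ν (s (h.choose + 1)) else ν x
    have hμs : ∀ k, μ (s k) = ν (s (k + 1)) := by
      intro k
      have h : ∃ j, s j = s k := ⟨k, rfl⟩
      have : μ (s k) = ν (s (h.choose + 1)) := dif_pos h
      rw [this, hs h.choose_spec]
    have hμo : ∀ x, (¬ ∃ k, s k = x) → μ x = ν x := fun x h => dif_neg h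
    have hM : Mat (fun x => e.NB x \ e.Iv) F univ μ := by
      refine ⟨?_, ?_⟩
      · intro x hx y hy hxy
        by_cases h1 : ∃ k, s k = x
        · obtain ⟨k, rfl⟩ := h1
          rw [hμs] at hxy
          by_cases h2 : ∃ k, s k = y
          · obtain ⟨j, rfl⟩ := h2
            rw [hμs] at hxy
            have := hs (hν1 (hsF _) (hsF _) hxy)
            have : k = j := by omega
            rw [this]
          · rw [hμo y h2] at hxy
            exact absurd ⟨k + 1, hν1 (hsF _) hy hxy⟩ h2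
        · rw [hμo x h1] at hxy
          by_cases h2 : ∃ k, s k = y
          · obtain ⟨j, rfl⟩ := h2
            rw [hμs] at hxy
            exact absurd ⟨j + 1, (hν1 hx (hsF _) hxy).symm⟩ h1
          · rw [hμo y h2] at hxy
            exact hν1 hx hy hxy
      · intro x hx
        refine ⟨?_, mem_univ _⟩
        by_cases h1 : ∃ k, s k = x
        · obtain ⟨k, rfl⟩ := h1
          rw [hμs]
          exact ⟨hsN k, (hν2 _ (hsF _)).1.2⟩
        · rw [hμo x h1]
          exact (hν2 x hx).1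
    obtain ⟨x', hx', h⟩ := hcrit μ hM (s 0) (hsF 0) (ν (s 0)) (hν2 _ (hsF 0)).1 (mem_univ _)
    by_cases h1 : ∃ k, s k = x'
    · obtain ⟨k, rfl⟩ := h1
      rw [hμs] at h
      have := hs (hν1 (hsF _) (hsF _) h)
      omega
    · rw [hμo x' h1] at h
      exact h1 ⟨0, (hν1 hx' (hsF _) h).symm⟩
  obtain ⟨s, hs, hsG, hsH, hsn⟩ := bar he F (fun x hx => hPX x (hFP hx)) (hP.mono hFP) ν hν1
    (fun x hx => (hν2 x hx).1) hcl (fun x hx => hN x (hFP hx)) hray
  obtain ⟨t, ht, -, -, htn, -⟩ := addX he hs o (hPX o hoP).1 (hPX o hoP).2 (by rw [hsH]; exact hoF)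
    (by
      intro y hy
      obtain ⟨x, hx, hyx⟩ := hNo y hy (mem_univ _)
      rw [hsG]
      exact hcl x hx hyx)
  have := nonneg ht.toPDat
  rw [htn, hsn] at this
  norm_num at this

/-- The countable matching statement used in the main proof. -/
theorem matched {e : Env V E} (he : e.Good) (P : Set E) (hP : P.Countable)
    (hPX : ∀ x ∈ P, x ∈ e.X ∧ x ∈ e.B) (hN : ∀ x ∈ P, (e.NB x).Countable) :
    ∃ g : E → E, InjOn g P ∧ ∀ x ∈ P, g x ∈ e.NB x \ e.Iv :=
  ps _ P hP id (no_obs he P hP hPX hN)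

end Pool.Agent.FLM
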