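import Pool.Agent.FLM.TA
import Pool.Agent.FLM.EnvG
import Pool.Agent.FLM.Noobs

namespace Pool.Agent.FLM

open Set

universe u w

variable {V : Type u} {E : Type w}

theorem walk_append {tl hd : E → V} {b c : V} {l' : List E} :
    ∀ {a : V} {l : List E}, IsWalk tl hd a l b → IsWalk tl hd b l' c →
      IsWalk tl hd a (l ++ l') c
  | _, [], h, h' => by
      have h0 := h
      simp only [IsWalk] at h0
      subst h0
      exact h'
  | _, _ :: _, h, h' => ⟨h.1, walk_append h.2 h'⟩

theorem transGen_walk {tl hd : E → V} {a b : V} (h : Relation.TransGen (Step tl hd) a b) :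
    ∃ l : List E, l ≠ [] ∧ IsWalk tl hd a l b := by
  induction h with
  | single h =>
    obtain ⟨e, h1, h2⟩ := h
    exact ⟨[e], by simp, h1, h2⟩
  | tail _ h ih =>
    obtain ⟨l, hl, hw⟩ := ih
    obtain ⟨e, h1, h2⟩ := h
    exact ⟨l ++ [e], by simp, walk_append hw ⟨h1, h2⟩⟩

theorem acyclic_of_walk {tl hd : E → V}
    (hac : ∀ (a : V) (l : List E), IsWalk tl hd a l a → l = []) :
    ∀ a, ¬ Relation.TransGen (Step tl hd) a a := by
  intro a h
  obtain ⟨l, hl, hw⟩ := transGen_walk h
  exact hl (hac a l hw)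

theorem step_wf {tl hd : E → V} (hac : ∀ a, ¬ Relation.TransGen (Step tl hd) a a)
    (hinf : ¬ ∃ f : ℕ → E, Function.Injective (fun n => hd (f n)) ∧
      ∀ n, hd (f (n + 1)) = tl (f n)) : WellFounded (Step tl hd) := by
  rw [wellFounded_iff_isEmpty_descending_chain]
  refine ⟨fun ⟨f, hf⟩ => ?_⟩
  choose e he1 he2 using hf
  have htr : ∀ m k, Relation.TransGen (Step tl hd) (f (m + k + 1)) (f m) := by
    intro m k
    induction k with
    | zero => exact Relation.TransGen.single ⟨e m, he1 m, he2 m⟩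
    | succ k ih =>
      exact Relation.TransGen.head ⟨e (m + k + 1), he1 _, he2 _⟩ ih
  apply hinf
  refine ⟨e, ?_, ?_⟩
  · intro m n hmn
    simp only [he2] at hmn
    by_contra hne
    rcases lt_or_gt_of_ne hne with h | h
    · obtain ⟨k, rfl⟩ := Nat.exists_eq_add_of_lt h
      have := htr m k
      rw [← hmn] at this
      exact hac _ this
    · obtain ⟨k, rfl⟩ := Nat.exists_eq_add_of_lt h
      have := htr n k
      rw [hmn] at this
      exact hac _ this
  · intro n
    rw [he2, he1]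

theorem gfam_linkable {tl hd : E → V} {r : V} {A B : Set E} (hB : B ∈ GFam tl hd r A) (v : V)
    (hv : v ≠ r) : Linkable tl hd r A v {x | x ∈ B ∧ hd x = v} := by
  obtain ⟨I, hI, hBI⟩ := hB
  have : {x | x ∈ B ∧ hd x = v} = I v := by
    ext x
    constructor
    · rintro ⟨hx, hxv⟩
      rw [hBI] at hx
      simp only [mem_iUnion] at hx
      obtain ⟨u, hu, hxu⟩ := hx
      have := ((hI u hu).1 hxu).2
      rw [hxv] at this
      rw [this]
      exact hxu
    · intro hx
      refine ⟨?_, ((hI v hv).1 hx).2⟩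
      rw [hBI]
      simp only [mem_iUnion]
      exact ⟨v, hv, hx⟩
  rw [this]
  exact (hI v hv).2

theorem mem_gfam {tl hd : E → V} {r : V} (hr : ∀ e, hd e ≠ r) {A B : Set E} (hBA : B ⊆ A)
    (h : ∀ v, v ≠ r → Linkable tl hd r A v {x | x ∈ B ∧ hd x = v}) :
    B ∈ GFam tl hd r A := by
  refine ⟨fun v => {x | x ∈ B ∧ hd x = v}, fun v hv => ⟨fun x hx => ⟨hBA hx.1, hx.2⟩, h v hv⟩, ?_⟩
  ext x
  simp only [mem_iUnion]
  constructor
  · intro hx
    exact ⟨hd x, hr x, hx, rfl⟩
  · rintro ⟨v, _, hx⟩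
    exact hx.1

theorem max_not_linkable {tl hd : E → V} {r : V} (hr : ∀ e, hd e ≠ r) {B : Set E}
    (hB : Maximal (fun F => F ∈ GFam tl hd r univ) B) (e : E) (he : e ∉ B) :
    ¬ Linkable tl hd r univ (hd e) (insert e {x | x ∈ B ∧ hd x = hd e}) := by
  intro h
  have h1 : insert e B ∈ GFam tl hd r univ := by
    apply mem_gfam hr (subset_univ _)
    intro v hv
    by_cases hev : hd e = v
    · subst hev
      have : {x | x ∈ insert e B ∧ hd x = hd e} = insert e {x | x ∈ B ∧ hd x = hd e} := by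
        ext x
        simp only [mem_insert_iff, mem_ofPred_eq]
        constructor
        · rintro ⟨rfl | h1, h2⟩
          · exact Or.inl rfl
          · exact Or.inr ⟨h1, h2⟩
        · rintro (rfl | h1)
          · exact ⟨Or.inl rfl, rfl⟩
          · exact ⟨Or.inr h1.1, h1.2⟩
      rw [this]
      exact h
    · have : {x | x ∈ insert e B ∧ hd x = v} = {x | x ∈ B ∧ hd x = v} := by
        ext x
        simp only [mem_insert_iff, mem_ofPred_eq]
        constructor
        · rintro ⟨rfl | h1, h2⟩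
          · exact absurd h2 hev
          · exact ⟨h1, h2⟩
        · rintro ⟨h1, h2⟩
          exact ⟨Or.inr h1, h2⟩
      rw [this]
      exact gfam_linkable hB.1 v hv
  exact he (hB.2 h1 (subset_insert e B) (mem_insert e B))

/-- One step along an edge of `B`. -/
def StepB (tl hd : E → V) (B : Set E) (a b : V) : Prop := ∃ e ∈ B, tl e = a ∧ hd e = b

theorem ancB_anc {tl hd : E → V} {B : Set E} {a b : V}
    (h : Relation.ReflTransGen (StepB tl hd B) a b) : Anc tl hd a b := by
  induction h with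
  | refl => exact Relation.ReflTransGen.refl
  | tail _ h ih =>
    obtain ⟨e, _, h⟩ := h
    exact Relation.ReflTransGen.tail ih ⟨e, h⟩

theorem ancB_countable {tl hd : E → V} {B : Set E}
    (hcount : ∀ v, {e | e ∈ B ∧ hd e = v}.Countable) (v : V) :
    {a | Relation.ReflTransGen (StepB tl hd B) a v}.Countable := by
  let W : ℕ → Set V := fun n =>
    Nat.rec {v} (fun _ S => ⋃ a ∈ S, tl '' {e | e ∈ B ∧ hd e = a}) n
  have hW : ∀ n, (W n).Countable := by
    intro n
    induction n with
    | zero => exact countable_singleton v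
    | succ n ih => exact ih.biUnion (fun a _ => (hcount a).image tl)
  refine (countable_iUnion hW).mono ?_
  intro a ha
  simp only [mem_ofPred_eq] at ha
  rw [mem_iUnion]
  induction ha using Relation.ReflTransGen.head_induction_on with
  | refl => exact ⟨0, rfl⟩
  | head h _ ih =>
    obtain ⟨n, hn⟩ := ih
    obtain ⟨e, heB, h1, h2⟩ := h
    refine ⟨n + 1, ?_⟩
    have : W (n + 1) = ⋃ a ∈ W n, tl '' {e | e ∈ B ∧ hd e = a} := rfl
    rw [this]
    simp only [mem_iUnion]
    exact ⟨_, hn, e, ⟨heB, h2⟩, h1⟩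

theorem flame_isM (tl hd : E → V) (r : V)
    (hac : ∀ a, ¬ Relation.TransGen (Step tl hd) a a) (hwf : WellFounded (Step tl hd))
    (B : Set E)
    (hlink : ∀ v, v ≠ r → Linkable tl hd r univ v {x | x ∈ B ∧ hd x = v})
    (hmax : ∀ e, e ∉ B → ¬ Linkable tl hd r univ (hd e) (insert e {x | x ∈ B ∧ hd x = hd e}))
    (hcount : ∀ v, {e | e ∈ B ∧ hd e = v}.Countable) (v : V) :
    v ≠ r → ∃ μ, IsM tl hd r B v {x | x ∈ B ∧ hd x = v} μ := by
  classical
  induction v using hwf.transGen.induction with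
  | _ v ih =>
  intro hv
  obtain ⟨M, hM⟩ := linkable_to_isM tl hd r hac univ v _ (fun x hx => hx.2) (hlink v hv)
  have hL : ∀ b, ∃ Lb : E → E, b ≠ r → Relation.TransGen (Step tl hd) b v →
      IsM tl hd r B b {x | x ∈ B ∧ hd x = b} Lb := by
    intro b
    by_cases hb : b ≠ r ∧ Relation.TransGen (Step tl hd) b v
    · obtain ⟨Lb, h⟩ := ih b hb.2 hb.1
      exact ⟨Lb, fun _ _ => h⟩
    · exact ⟨id, fun h1 h2 => absurd ⟨h1, h2⟩ hb⟩
  choose L hL using hL
  have he := env_good tl hd r hac hwf B v hmax M hM L hL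
  have hW := ancB_countable (tl := tl) hcount v
  have hPc : {x | x ∈ B ∧ tl x ≠ r ∧
      Relation.ReflTransGen (StepB tl hd B) (hd x) v}.Countable := by
    refine (hW.biUnion (fun a _ => hcount a)).mono ?_
    rintro x ⟨h1, _, h3⟩
    simp only [mem_iUnion]
    exact ⟨hd x, h3, h1, rfl⟩
  obtain ⟨g, hg1, hg2⟩ := matched he
    {x | x ∈ B ∧ tl x ≠ r ∧ Relation.ReflTransGen (StepB tl hd B) (hd x) v} hPc
    (fun x hx => ⟨⟨hx.2.1, ancB_anc hx.2.2⟩, hx.1⟩)
    (by
      intro x _
      refine ((countable_singleton x).union (hcount (tl x))).mono ?_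
      rintro y (rfl | hy)
      · exact Or.inl rfl
      · exact Or.inr hy)
  have hval : ∀ x, (x ∈ B ∧ tl x ≠ r ∧ Relation.ReflTransGen (StepB tl hd B) (hd x) v) →
      ∀ y ∈ XS tl hd r v, g x = y →
        (y ∈ B ∧ tl y ≠ r ∧ Relation.ReflTransGen (StepB tl hd B) (hd y) v) := by
    intro x hx y hy hxy
    rcases (hg2 x hx).1 with h | h
    · have : y = x := by rw [← hxy]; exact h
      rw [this]
      exact hx
    · rw [hxy] at h
      refine ⟨h.1, hy.1, ?_⟩
      have h2 : hd y = tl x := h.2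
      rw [h2]
      exact Relation.ReflTransGen.head ⟨x, hx.1, rfl, rfl⟩ hx.2.2
  refine ⟨fun x => if x ∈ B ∧ tl x ≠ r ∧ Relation.ReflTransGen (StepB tl hd B) (hd x) v then g x
    else x, ?_, ?_⟩
  · intro x hx y hy hxy
    by_cases h1 : x ∈ B ∧ tl x ≠ r ∧ Relation.ReflTransGen (StepB tl hd B) (hd x) v
    · by_cases h2 : y ∈ B ∧ tl y ≠ r ∧ Relation.ReflTransGen (StepB tl hd B) (hd y) v
      · have hxy' : g x = g y := by
          simpa only [if_pos h1, if_pos h2] using hxy
        exact hg1 h1 h2 hxy'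
      · have hxy' : g x = y := by
          simpa only [if_pos h1, if_neg h2] using hxy
        exact absurd (hval x h1 y hy hxy') h2
    · by_cases h2 : y ∈ B ∧ tl y ≠ r ∧ Relation.ReflTransGen (StepB tl hd B) (hd y) v
      · have hxy' : x = g y := by
          simpa only [if_neg h1, if_pos h2] using hxy
        exact absurd (hval y h2 x hx hxy'.symm) h1
      · simpa only [if_neg h1, if_neg h2] using hxy
  · intro x hx
    by_cases h1 : x ∈ B ∧ tl x ≠ r ∧ Relation.ReflTransGen (StepB tl hd B) (hd x) v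
    · beta_reduce
      rw [if_pos h1]
      refine ⟨(hg2 x h1).2, ?_⟩
      rcases (hg2 x h1).1 with h | h
      · exact Or.inl h
      · exact Or.inr ⟨h1.1, h.1, h.2⟩
    · beta_reduce
      rw [if_neg h1]
      refine ⟨?_, Or.inl rfl⟩
      rintro ⟨h2, h3⟩
      exact h1 ⟨h2, hx.1, by rw [h3]⟩

theorem main (tl hd : E → V) (r : V) (hr : ∀ e, hd e ≠ r)
    (hac : ∀ (a : V) (l : List E), IsWalk tl hd a l a → l = [])
    (hinf : ¬ ∃ f : ℕ → E, Function.Injective (fun n => hd (f n)) ∧
      ∀ n, hd (f (n + 1)) = tl (f n))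
    (B : Set E) (hB : Maximal (fun F => F ∈ GFam tl hd r univ) B)
    (hcount : ∀ v, {e | e ∈ B ∧ hd e = v}.Countable) :
    B ∈ GFam tl hd r B := by
  have hac' := acyclic_of_walk hac
  have hwf := step_wf hac' hinf
  apply mem_gfam hr (Subset.refl B)
  intro v hv
  obtain ⟨μ, hμ⟩ := flame_isM tl hd r hac' hwf B (fun v hv => gfam_linkable hB.1 v hv)
    (fun e he => max_not_linkable hr hB e he) hcount v hv
  exact isM_to_linkable tl hd r hac' hwf B v _ (Subset.refl _) μ hμ

end Pool.Agent.FLM
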