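import Pool.Agent.FLM.Defs

namespace Pool.Agent.FLM

open Set

universe u w

section PSB

variable {X : Type u} {Y : Type w} {N : X → Set Y}

private theorem PSB_mono {A B : Set X} {Q : Set Y} {f : X → Y} (h : Mat N B Q f) (hAB : A ⊆ B) :
    Mat N A Q f :=
  ⟨h.1.mono hAB, fun x hx => h.2 x (hAB hx)⟩

open Classical in
private theorem PSB_mix {A B : Set X} {Q : Set Y} {f g : X → Y} (hf : Mat N A Q f)
    (hg : Mat N B Q g) (hd : ∀ x ∈ A, ∀ x' ∈ B, x' ∉ A → f x ≠ g x') :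
    Mat N (A ∪ B) Q (fun x => if x ∈ A then f x else g x) := by
  constructor
  · intro x hx x' hx' hxx'
    simp only at hxx'
    by_cases h : x ∈ A <;> by_cases h' : x' ∈ A
    · rw [if_pos h, if_pos h'] at hxx'
      exact hf.1 h h' hxx'
    · rw [if_pos h, if_neg h'] at hxx'
      exact absurd hxx' (hd x h x' (hx'.resolve_left h') h')
    · rw [if_neg h, if_pos h'] at hxx'
      exact absurd hxx'.symm (hd x' h' x (hx.resolve_left h) h)
    · rw [if_neg h, if_neg h'] at hxx'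
      exact hg.1 (hx.resolve_left h) (hx'.resolve_left h') hxx'
  · intro x hx
    by_cases h : x ∈ A
    · simp only [if_pos h]
      exact hf.2 x h
    · simp only [if_neg h]
      exact hg.2 x (hx.resolve_left h)

/-- the switching relation -/
private def PSB_R (C F : Set X) (c : X) (μ ν : X → Y) (x x' : X) : Prop :=
  x ∈ C ∧ x ≠ c ∧ x' ∈ F ∧ ν x' = μ x

private theorem PSB_one {F : Set X} {o : X} (ho : o ∉ F) {Q : Set Y} {ν : X → Y}
    (hν : Mat N F Q ν)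
    (hC : ∀ μ, Mat N F Q μ → ∀ x ∈ F, ∀ y ∈ N x, y ∈ Q → ∃ x' ∈ F, μ x' = y)
    (hNo : ∀ y ∈ N o, y ∈ Q → ∃ x ∈ F, y ∈ N x) {c : X} (hc : c ∈ insert o F) {μ : X → Y}
    (hμ : Mat N (insert o F \ {c}) Q μ) :
    ∀ x ∈ F, ∀ y ∈ N x, y ∈ Q → ∃ x' ∈ insert o F \ {c}, μ x' = y := by
  classical
  rcases hc with rfl | hcF
  · have e : insert c F \ {c} = F := by
      ext x
      constructor
      · rintro ⟨h1, h2⟩
        exact h1.resolve_left h2
      · intro h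
        exact ⟨Or.inr h, fun h' => ho (h' ▸ h)⟩
    rw [e] at hμ ⊢
    exact hC μ hμ
  · intro x1 hx1 y1 hy1 hy1Q
    by_contra hcon
    have hcon' : ∀ x' ∈ insert o F \ {c}, μ x' ≠ y1 := fun x' hx' h => hcon ⟨x', hx', h⟩
    have hoc : o ≠ c := fun h => ho (h ▸ hcF)
    set R := PSB_R (insert o F) F c μ ν with hR
    set T : Set X := {x | Relation.ReflTransGen R o x} with hT
    have hpred : ∀ x ∈ F, x ∈ T → ∃ x'' ∈ T, R x'' x := by
      intro x hxF hxT
      rcases Relation.ReflTransGen.cases_tail hxT with h | ⟨x'', h1, h2⟩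
      · exact absurd (h ▸ hxF) ho
      · exact ⟨x'', h1, h2⟩
    by_cases hcT : c ∈ T
    · have hA : Mat N (F ∩ T) Q ν := PSB_mono hν inter_subset_left
      have hB : Mat N (F \ T) Q μ := by
        refine PSB_mono hμ ?_
        rintro x ⟨h1, h2⟩
        exact ⟨Or.inr h1, fun h => h2 (by rw [mem_singleton_iff.1 h]; exact hcT)⟩
      have hmix := PSB_mix hA hB (by
        rintro x ⟨hxF, hxT⟩ x' ⟨hxF', hxT'⟩ _ heq
        obtain ⟨x'', h1, h2⟩ := hpred x hxF hxT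
        have h3 : μ x'' = μ x' := h2.2.2.2.symm.trans heq
        have h4 : x' ≠ c := fun h => hxT' (h ▸ hcT)
        have h5 := hμ.1 ⟨h2.1, h2.2.1⟩ ⟨Or.inr hxF', h4⟩ h3
        exact hxT' (h5 ▸ h1))
      rw [inter_union_sdiff] at hmix
      obtain ⟨x', hx', he⟩ := hC _ hmix x1 hx1 y1 hy1 hy1Q
      by_cases h : x' ∈ F ∩ T
      · rw [if_pos h] at he
        obtain ⟨x'', h1, h2⟩ := hpred x' h.1 h.2
        exact hcon' x'' ⟨h2.1, h2.2.1⟩ (h2.2.2.2.symm.trans he)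
      · rw [if_neg h] at he
        have h4 : x' ≠ c := fun h' => h ⟨hx', h' ▸ hcT⟩
        exact hcon' x' ⟨Or.inr hx', h4⟩ he
    · have hne : ∀ x ∈ T, x ≠ c := fun x hx h => hcT (h ▸ hx)
      have hA : Mat N (F ∩ T) Q μ := by
        refine PSB_mono hμ ?_
        rintro x ⟨h1, h2⟩
        exact ⟨Or.inr h1, hne x h2⟩
      have hB : Mat N (F \ T) Q ν := PSB_mono hν sdiff_subset
      have hsucc : ∀ x ∈ T, x ∈ insert o F → ∀ x' ∈ F, ν x' = μ x → x' ∈ T := by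
        intro x hx hxC x' hx' h
        exact Relation.ReflTransGen.tail hx ⟨hxC, hne x hx, hx', h⟩
      have hmix := PSB_mix hA hB (by
        rintro x ⟨hxF, hxT⟩ x' ⟨hxF', hxT'⟩ _ heq
        exact hxT' (hsucc x hxT (Or.inr hxF) x' hxF' heq.symm))
      rw [inter_union_sdiff] at hmix
      have hoM := hμ.2 o ⟨Or.inl rfl, hoc⟩
      obtain ⟨x2, hx2, hx2N⟩ := hNo _ hoM.1 hoM.2
      obtain ⟨x', hx', he⟩ := hC _ hmix x2 hx2 (μ o) hx2N hoM.2
      by_cases h : x' ∈ F ∩ T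
      · rw [if_pos h] at he
        have h5 := hμ.1 ⟨Or.inr h.1, hne x' h.2⟩ ⟨Or.inl rfl, hoc⟩ he
        exact ho (h5 ▸ h.1)
      · rw [if_neg h] at he
        exact h ⟨hx', hsucc o Relation.ReflTransGen.refl (Or.inl rfl) x' hx' he⟩

private theorem PSB_four {F : Set X} {o : X} (ho : o ∉ F) {Q : Set Y} {ν : X → Y}
    (hν : Mat N F Q ν) {c : X} (hc : c ∈ insert o F) {μ : X → Y}
    (hμ : Mat N (insert o F \ {c}) Q μ) {c' : X} (hc' : c' ∈ F) (hcc' : ν c' ∈ N c) :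
    ∃ μ', Mat N (insert o F \ {c'}) Q μ' := by
  classical
  by_cases hcc : c' = c
  · subst hcc
    exact ⟨μ, hμ⟩
  set R := PSB_R (insert o F) F c μ ν with hR
  set T : Set X := {x | Relation.ReflTransGen R x c'} with hT
  have hcT : c ∉ T := by
    intro h
    rcases Relation.ReflTransGen.cases_head h with h' | ⟨w, h1, _⟩
    · exact hcc h'.symm
    · exact h1.2.1 rfl
  have hc'T : c' ∈ T := Relation.ReflTransGen.refl
  have hsucc : ∀ x ∈ T, x ≠ c' → ∀ x' ∈ F, ν x' = μ x → x' ∈ T := by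
    intro x hx hxc x' hx' h
    rcases Relation.ReflTransGen.cases_head hx with h' | ⟨w, h1, h2⟩
    · exact absurd h' hxc
    · have : w = x' := hν.1 h1.2.2.1 hx' (h1.2.2.2.trans h.symm)
      exact this ▸ h2
  by_cases hoT : o ∈ T
  · have hA : Mat N ((insert o F ∩ T) \ {c'}) Q μ := by
      refine PSB_mono hμ ?_
      rintro x ⟨⟨h1, h2⟩, _⟩
      exact ⟨h1, fun h => hcT (mem_singleton_iff.1 h ▸ h2)⟩
    have hB : Mat N (insert o F \ T) Q ν := by
      refine PSB_mono hν ?_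
      rintro x ⟨h1, h2⟩
      exact h1.resolve_left fun h => h2 (h ▸ hoT)
    have hmix := PSB_mix hA hB (by
      rintro x ⟨⟨hx1, hx2⟩, hx3⟩ x' ⟨hx1', hx2'⟩ _ heq
      have hF : x' ∈ F := hx1'.resolve_left fun h => hx2' (h ▸ hoT)
      exact hx2' (hsucc x hx2 hx3 x' hF heq.symm))
    refine ⟨_, PSB_mono hmix ?_⟩
    rintro x ⟨h1, h2⟩
    by_cases h : x ∈ T
    · exact Or.inl ⟨⟨h1, h⟩, h2⟩
    · exact Or.inr ⟨h1, h⟩
  · have hA : Mat N ((insert o F \ T) \ {c}) Q μ := by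
      refine PSB_mono hμ ?_
      rintro x ⟨⟨h1, _⟩, h2⟩
      exact ⟨h1, h2⟩
    have hB : Mat N ((insert o F ∩ T) \ {c'}) Q ν := by
      refine PSB_mono hν ?_
      rintro x ⟨⟨h1, h2⟩, _⟩
      exact h1.resolve_left fun h => hoT (h ▸ h2)
    have hS : Mat N {c} Q (fun _ => ν c') := by
      constructor
      · intro x hx x' hx' _
        rw [mem_singleton_iff.1 hx, mem_singleton_iff.1 hx']
      · intro x hx
        rw [mem_singleton_iff.1 hx]
        exact ⟨hcc', (hν.2 c' hc').2⟩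
    have hpre : ∀ x ∈ insert o F, x ≠ c → x ∉ T → ∀ x' ∈ F, x' ∈ T → μ x ≠ ν x' := by
      intro x hx1 hx2 hx3 x' hx1' hx2' heq
      exact hx3 (Relation.ReflTransGen.head ⟨hx1, hx2, hx1', heq.symm⟩ hx2')
    have hmix1 := PSB_mix hB hS (by
      rintro x ⟨⟨hx1, hx2⟩, hx3⟩ x' hx' _ heq
      have hF : x ∈ F := hx1.resolve_left fun h => hoT (h ▸ hx2)
      exact hx3 (hν.1 hF hc' heq))
    have hmix2 := PSB_mix hA hmix1 (by
      rintro x ⟨⟨hx1, hx2⟩, hx3⟩ x' hx' _ heq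
      by_cases h : x' ∈ (insert o F ∩ T) \ {c'}
      · rw [if_pos h] at heq
        have hF : x' ∈ F := h.1.1.resolve_left fun h' => hoT (h' ▸ h.1.2)
        exact hpre x hx1 hx3 hx2 x' hF h.1.2 heq
      · rw [if_neg h] at heq
        exact hpre x hx1 hx3 hx2 c' hc' hc'T heq)
    refine ⟨_, PSB_mono hmix2 ?_⟩
    rintro x ⟨h1, h2⟩
    by_cases h : x ∈ T
    · exact Or.inr (Or.inl ⟨⟨h1, h⟩, h2⟩)
    · by_cases h' : x = c
      · exact Or.inr (Or.inr h')
      · exact Or.inl ⟨⟨h1, h⟩, h'⟩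

end PSB

theorem psB {X : Type u} {Y : Type w} (N : X → Set Y) (P : Set X) (Q : Set Y)
    (hcrit : ∀ F : Set X, F ⊆ P → Crit N F Q → F = ∅) (hne : ∀ x ∈ P, ∃ y ∈ N x, y ∈ Q)
    (y : Y) (hy : y ∈ Q) : ¬ Obs N P (Q \ {y}) := by
  classical
  rintro ⟨F, o, hFP, hoP, ho, ⟨⟨ν, hν⟩, hC⟩, hNo⟩
  have hCP : insert o F ⊆ P := insert_subset hoP hFP
  have hcov : ∀ x ∈ insert o F, ∀ y' ∈ N x, y' ∈ Q \ {y} → ∃ x' ∈ F, ν x' = y' := by
    rintro x (rfl | hx) y' hy' hyQ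
    · obtain ⟨x2, hx2, hx2N⟩ := hNo y' hy' hyQ
      exact hC ν hν x2 hx2 y' hx2N hyQ
    · exact hC ν hν x hx y' hy' hyQ
  by_cases hcase : ∃ c0 ∈ insert o F, (∃ μ, Mat N (insert o F \ {c0}) (Q \ {y}) μ) ∧ y ∈ N c0
  · obtain ⟨c0, hc0, ⟨μ0, hμ0⟩, hyc0⟩ := hcase
    have hcr : Crit N (insert o F) Q := by
      constructor
      · have hA : Mat N (insert o F \ {c0}) Q μ0 := ⟨hμ0.1, fun x hx => ⟨(hμ0.2 x hx).1,
          (hμ0.2 x hx).2.1⟩⟩
        have hB : Mat N {c0} Q (fun _ => y) := by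
          constructor
          · intro x hx x' hx' _
            rw [mem_singleton_iff.1 hx, mem_singleton_iff.1 hx']
          · intro x hx
            rw [mem_singleton_iff.1 hx]
            exact ⟨hyc0, hy⟩
        have hmix := PSB_mix hA hB (by
          intro x hx x' _ _ heq
          exact (hμ0.2 x hx).2.2 heq)
        refine ⟨_, PSB_mono hmix ?_⟩
        intro x hx
        by_cases h : x = c0
        · exact Or.inr h
        · exact Or.inl ⟨hx, h⟩
      · intro μ hμ x hx y' hy' hyQ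
        -- μ uses y
        have huse : ∃ c ∈ insert o F, μ c = y := by
          by_contra hcon
          have h1 : Mat N (insert o F) (Q \ {y}) μ :=
            ⟨hμ.1, fun x hx => ⟨(hμ.2 x hx).1, (hμ.2 x hx).2, fun h => hcon ⟨x, hx, h⟩⟩⟩
          have h2 : Mat N F (Q \ {y}) μ := PSB_mono h1 (subset_insert _ _)
          have h3 := h1.2 o (Or.inl rfl)
          obtain ⟨x2, hx2, hx2N⟩ := hNo _ h3.1 h3.2
          obtain ⟨x3, hx3, he⟩ := hC μ h2 x2 hx2 _ hx2N h3.2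
          have h4 := hμ.1 (Or.inr hx3) (Or.inl rfl) he
          exact ho (h4 ▸ hx3)
        obtain ⟨c, hc, hcy⟩ := huse
        have h1 : Mat N (insert o F \ {c}) (Q \ {y}) μ := by
          refine ⟨hμ.1.mono sdiff_subset, fun x hx => ⟨(hμ.2 x hx.1).1, (hμ.2 x hx.1).2,
            fun h => hx.2 ?_⟩⟩
          exact hμ.1 hx.1 hc ((mem_singleton_iff.1 h).trans hcy.symm)
        by_cases hyy : y' = y
        · exact ⟨c, hc, hcy.trans hyy.symm⟩
        · obtain ⟨x2, hx2, he2⟩ := hcov x hx y' hy' ⟨hyQ, hyy⟩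
          have hx2N : y' ∈ N x2 := he2 ▸ (hν.2 x2 hx2).1
          obtain ⟨x3, hx3, he3⟩ := PSB_one ho hν hC hNo hc h1 x2 hx2 y' hx2N ⟨hyQ, hyy⟩
          exact ⟨x3, hx3.1, he3⟩
    have := hcrit _ hCP hcr
    exact absurd this (Set.insert_nonempty _ _).ne_empty
  · -- the set of removable elements of F
    have hcase' : ∀ c0 ∈ insert o F, (∃ μ, Mat N (insert o F \ {c0}) (Q \ {y}) μ) →
        y ∉ N c0 := fun c0 h1 h2 h3 => hcase ⟨c0, h1, h2, h3⟩
    set K : Set X := {c | c ∈ F ∧ ∃ μ, Mat N (insert o F \ {c}) (Q \ {y}) μ} with hK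
    have hoR : ∃ μ, Mat N (insert o F \ {o}) (Q \ {y}) μ := by
      refine ⟨ν, PSB_mono hν ?_⟩
      rintro x ⟨h1, h2⟩
      exact h1.resolve_left h2
    have hkey : ∀ c ∈ insert o F, (∃ μ, Mat N (insert o F \ {c}) (Q \ {y}) μ) →
        ∀ y' ∈ N c, y' ∈ Q → ∃ c' ∈ K, ν c' = y' := by
      intro c hc hcR y' hy' hyQ
      have hyy : y' ≠ y := fun h => hcase' c hc hcR (h ▸ hy')
      obtain ⟨c', hc', he⟩ := hcov c hc y' hy' ⟨hyQ, hyy⟩
      obtain ⟨μ, hμ⟩ := hcR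
      exact ⟨c', ⟨hc', PSB_four ho hν hc hμ hc' (he ▸ hy')⟩, he⟩
    have hKF : K ⊆ F := fun x hx => hx.1
    have hcr : Crit N K Q := by
      constructor
      · exact ⟨ν, (PSB_mono hν hKF).1, fun x hx => ⟨(hν.2 x hx.1).1, (hν.2 x hx.1).2.1⟩⟩
      · intro μ hμ x hx y' hy' hyQ
        have hval : ∀ x ∈ K, ∃ c' ∈ K, ν c' = μ x := fun x hx =>
          hkey x (Or.inr hx.1) hx.2 _ (hμ.2 x hx).1 (hμ.2 x hx).2
        have hA : Mat N K (Q \ {y}) μ := by
          refine ⟨hμ.1, fun x hx => ⟨(hμ.2 x hx).1, ?_⟩⟩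
          obtain ⟨c', hc', he⟩ := hval x hx
          exact he ▸ (hν.2 c' hc'.1).2
        have hB : Mat N (F \ K) (Q \ {y}) ν := PSB_mono hν sdiff_subset
        have hmix := PSB_mix hA hB (by
          intro x hx x' hx' _ heq
          obtain ⟨c', hc', he⟩ := hval x hx
          have : c' = x' := hν.1 hc'.1 hx'.1 (he.trans heq)
          exact hx'.2 (this ▸ hc'))
        rw [union_sdiff_cancel hKF] at hmix
        obtain ⟨c', hc', he⟩ := hkey x (Or.inr hx.1) hx.2 y' hy' hyQ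
        have hyQ' : y' ∈ Q \ {y} := he ▸ (hν.2 c' hc'.1).2
        obtain ⟨x3, hx3, he3⟩ := hC _ hmix x hx.1 y' hy' hyQ'
        by_cases h : x3 ∈ K
        · rw [if_pos h] at he3
          exact ⟨x3, h, he3⟩
        · rw [if_neg h] at he3
          have : x3 = c' := hν.1 hx3 hc'.1 (he3.trans he.symm)
          exact absurd (this ▸ hc') h
    have hKe := hcrit K (hKF.trans hFP) hcr
    obtain ⟨y', hy', hyQ⟩ := hne o hoP
    obtain ⟨c', hc', -⟩ := hkey o (Or.inl rfl) hoR y' hy' hyQ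
    rw [hKe] at hc'
    exact hc'

end Pool.Agent.FLM
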