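import Pool.Agent.FLM.Defs

namespace Pool.Agent.FLM

open Set

universe u w

variable {V : Type u} {E : Type w}

theorem ext_refl (s : St E) : Ext s s where
  G := subset_rfl
  H := subset_rfl
  G' := subset_rfl
  keep := fun _ _ _ => rfl
  new := fun _ h h' => absurd h h'
  old := fun _ h h' => absurd h h'

theorem ext_trans {e : Env V E} {s t u : St E} (hs : PDat e s) (hu : PDat e u)
    (h1 : Ext s t) (h2 : Ext t u) : Ext s u where
  G := h1.G.trans h2.G
  H := h1.H.trans h2.H
  G' := h1.G'.trans h2.G'
  keep := by
    intro x hx hxu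
    by_cases ht : x ∈ t.A
    · rw [h2.keep x ht hxu, h1.keep x hx ht]
    · exact absurd (h1.G' (hs.ndA x hx (hu.nd x hxu))) (h2.new x hxu ht)
  new := by
    intro x hxu hx
    by_cases ht : x ∈ t.A
    · rw [h2.keep x ht hxu]
      exact h1.new x ht hx
    · exact fun h => h2.new x hxu ht (h1.G' h)
  old := by
    intro x hx hxu
    by_cases ht : x ∈ t.A
    · rw [← h1.keep x hx ht]
      exact h2.old x ht hxu
    · exact h2.G (h1.old x hx ht)

theorem init_pdat (e : Env V E) : PDat e ⟨∅, ∅, 0, ∅, ∅, id⟩ where
  sub := subset_rfl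
  AX := empty_subset _
  inj := injOn_empty _
  img := by simp
  nd := fun _ h => absurd h (notMem_empty _)
  nb := fun _ h => absurd h (notMem_empty _)
  iv := fun _ h => absurd h (notMem_empty _)
  ndA := fun _ h => absurd h (notMem_empty _)
  HX := fun _ h => absurd h (notMem_empty _)
  HN := fun _ h => absurd h (notMem_empty _)
  cnt := by
    intro F hF _
    have : F = ∅ := Finset.eq_empty_of_forall_notMem fun y hy => notMem_empty y (hF y hy)
    rw [this]
    simp

theorem addY_pdat {e : Env V E} (he : e.Good) {s : St E} (hs : PDat e s) (y : E)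
    (hy : y ∉ s.G) :
    ∃ t : St E, PDat e t ∧ t.G = insert y s.G ∧ t.H = s.H ∧ t.n = s.n + 1 ∧ Ext s t := by
  classical
  refine ⟨⟨insert y s.G, s.H, s.n + 1, insert y s.G', {x | x ∈ s.A ∧ s.P x ≠ y}, s.P⟩,
    ?_, rfl, rfl, rfl, ?_⟩
  · refine ⟨insert_subset_insert hs.sub, fun x hx => hs.AX hx.1,
      hs.inj.mono fun x hx => hx.1, ?_, fun x hx => hs.nd x hx.1,
      fun x hx => hs.nb x hx.1, fun x hx => hs.iv x hx.1,
      fun x hx => (hs.ndA x hx.1).trans (subset_insert _ _), hs.HX,
      fun x hx => (hs.HN x hx).trans (subset_insert _ _), ?_⟩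
    · ext z
      constructor
      · rintro ⟨x, ⟨hx, hxy⟩, rfl⟩
        have h1 : s.P x ∈ s.G' \ s.G := by
          rw [← hs.img]; exact mem_image_of_mem _ hx
        refine ⟨mem_insert_of_mem _ h1.1, ?_⟩
        rintro (h | h)
        · exact hxy h
        · exact h1.2 h
      · rintro ⟨h1, h2⟩
        have h3 : z ≠ y := fun h => h2 (h ▸ mem_insert _ _)
        have h4 : z ∈ s.G' := h1.resolve_left h3
        have h5 : z ∉ s.G := fun h => h2 (mem_insert_of_mem _ h)
        have h6 : z ∈ s.P '' s.A := by rw [hs.img]; exact ⟨h4, h5⟩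
        obtain ⟨x, hx, rfl⟩ := h6
        exact ⟨x, ⟨hx, h3⟩, rfl⟩
    · intro F hF hFM
      show (F.card : ℤ) ≤ s.n + 1
      by_cases hex : ∃ x0 ∈ s.A, s.P x0 = y
      · obtain ⟨x0, hx0, hPx0⟩ := hex
        have hyG' : y ∈ s.G' := by
          have h1 : s.P x0 ∈ s.G' \ s.G := by
            rw [← hs.img]; exact mem_image_of_mem _ hx0
          rw [← hPx0]; exact h1.1
        have h2 := hs.cnt (F.erase (e.M x0))
          (by
            intro z hz
            have h3 : z ∈ insert y s.G' := hF z (Finset.mem_of_mem_erase hz)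
            rcases h3 with h | h
            · rw [h]; exact hyG'
            · exact h)
          (by
            intro z hz x hx
            have hzF := Finset.mem_of_mem_erase hz
            rcases hx with hx | hx
            · exact hFM z hzF x (Or.inl hx)
            · by_cases hxy : s.P x = y
              · have : x = x0 := hs.inj hx hx0 (hxy.trans hPx0.symm)
                rw [this]
                exact (Finset.ne_of_mem_erase hz).symm
              · exact hFM z hzF x (Or.inr ⟨hx, hxy⟩))
        have h3 := Finset.pred_card_le_card_erase (s := F) (a := e.M x0)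
        omega
      · have h2 := hs.cnt (F.erase y)
          (by
            intro z hz
            have h3 : z ∈ insert y s.G' := hF z (Finset.mem_of_mem_erase hz)
            exact h3.resolve_left (Finset.ne_of_mem_erase hz))
          (by
            intro z hz x hx
            have hzF := Finset.mem_of_mem_erase hz
            rcases hx with hx | hx
            · exact hFM z hzF x (Or.inl hx)
            · exact hFM z hzF x (Or.inr ⟨hx, fun h => hex ⟨x, hx, h⟩⟩))
        have h3 := Finset.pred_card_le_card_erase (s := F) (a := y)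
        omega
  · exact ⟨subset_insert _ _, subset_rfl, subset_insert _ _, fun _ _ _ => rfl,
      fun x h h' => absurd h.1 h', fun x hx hx' => by
        by_cases h : s.P x = y
        · show s.P x ∈ insert y s.G
          rw [h]; exact mem_insert _ _
        · exact absurd ⟨hx, h⟩ hx'⟩

theorem addX {e : Env V E} (he : e.Good) {s : St E} (hs : Dat e s) (x : E) (hx : x ∈ e.X)
    (hB : x ∈ e.B) (hH : x ∉ s.H) (hN : e.NB x \ e.Iv ⊆ s.G) :
    ∃ t : St E, Dat e t ∧ t.G = s.G ∧ t.H = insert x s.H ∧ t.n = s.n - 1 ∧ Ext s t := by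
  classical
  have hxA : x ∉ s.A := by
    intro h
    have h1 : s.P x ∈ s.G' \ s.G := by
      rw [← hs.img]; exact mem_image_of_mem _ h
    exact h1.2 (hN ⟨hs.nb x h hB, hs.iv x h⟩)
  have hMx : e.M x ∈ s.G' := by
    obtain ⟨b, hb, hIb, hND⟩ := he.tail x hx hB
    rcases hND (he.M_nd x hx) with h | h
    · exact hs.sub (hN ⟨h, he.M_iv x hx⟩)
    · exact hs.cl b hb (hIb.trans hN) h
  refine ⟨⟨s.G, insert x s.H, s.n - 1, s.G', s.A, s.P⟩, ⟨⟨hs.sub, hs.AX, hs.inj, hs.img,
    hs.nd, hs.nb, hs.iv, hs.ndA, ?_, ?_, ?_⟩, hs.cl⟩, rfl, rfl, rfl, ?_⟩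
  · rintro z (rfl | hz)
    · exact ⟨hx, hB⟩
    · exact hs.HX z hz
  · rintro z (rfl | hz)
    · exact hN
    · exact hs.HN z hz
  · intro F hF hFM
    show (F.card : ℤ) ≤ s.n - 1
    have hnot : e.M x ∉ F := fun h => hFM _ h x (Or.inl (mem_insert _ _)) rfl
    have h2 := hs.cnt (insert (e.M x) F)
      (by
        intro z hz
        rcases Finset.mem_insert.1 hz with h | h
        · rw [h]; exact hMx
        · exact hF z h)
      (by
        intro z hz x' hx'
        rcases Finset.mem_insert.1 hz with h | h
        · rw [h]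
          intro hM
          rcases hx' with h' | h'
          · have : x' = x := he.M_inj (hs.HX x' h').1 hx hM
            exact hH (this ▸ h')
          · have : x' = x := he.M_inj (hs.AX h') hx hM
            exact hxA (this ▸ h')
        · rcases hx' with h' | h'
          · exact hFM z h x' (Or.inl (mem_insert_of_mem _ h'))
          · exact hFM z h x' (Or.inr h'))
    rw [Finset.card_insert_of_notMem hnot] at h2
    push_cast at h2
    omega
  · exact ⟨subset_rfl, subset_insert _ _, subset_rfl, fun _ _ _ => rfl,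
      fun _ h h' => absurd h h', fun _ h h' => absurd h h'⟩

theorem nonneg {e : Env V E} {s : St E} (hs : PDat e s) : 0 ≤ s.n := by
  have := hs.cnt ∅ (fun y hy => absurd hy (Finset.notMem_empty y))
    (fun y hy => absurd hy (Finset.notMem_empty y))
  simpa using this

end Pool.Agent.FLM
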