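import Pool.Agent.FLM.Defs

namespace Pool.Agent.FLM

open Set

universe u w

variable {V : Type u} {E : Type w}

/-- `e'` comes just before `e` on one of the paths. -/
private def PreR (Ps : Set (List E)) (e' e : E) : Prop :=
  ∃ p ∈ Ps, ∃ l1 l2, p = l1 ++ e' :: e :: l2

private theorem walk_append (tl hd : E → V) : ∀ (l1 l2 : List E) (a b : V),
    IsWalk tl hd a (l1 ++ l2) b → ∃ c, IsWalk tl hd c l2 b
  | [], l2, a, b, h => ⟨a, h⟩
  | e :: l1, l2, a, b, h => by
      have h' : IsWalk tl hd (hd e) (l1 ++ l2) b := h.2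
      exact walk_append tl hd l1 l2 (hd e) b h'

theorem linkable_to_isM (tl hd : E → V) (r : V)
    (hac : ∀ a, ¬ Relation.TransGen (Step tl hd) a a) (A : Set E) (v : V) (I : Set E)
    (hI : I ⊆ {e | hd e = v}) (h : Linkable tl hd r A v I) : ∃ μ, IsM tl hd r A v I μ := by
  classical
  obtain ⟨Ps, h1, h2, h3⟩ := h
  -- (1)
  have P1 : ∀ e' e, PreR Ps e' e → hd e' = tl e ∧ e' ∈ A ∧ e ∈ A := by
    rintro e' e ⟨p, hp, l1, l2, rfl⟩
    obtain ⟨⟨hw, -⟩, hA⟩ := h1 _ hp
    obtain ⟨c, hc⟩ := walk_append tl hd l1 _ r v hw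
    refine ⟨hc.2.1.symm, hA _ (by simp), hA _ (by simp)⟩
  -- (2)
  have P2 : ∀ e' e f, PreR Ps e' e → PreR Ps e' f → e = f := by
    rintro e' e f ⟨p, hp, l1, l2, hpe⟩ ⟨q, hq, m1, m2, hqe⟩
    by_cases hpq : p = q
    · subst hpq
      have hnd : p.Nodup := by
        have := (h1 _ hp).1.2
        rw [List.nodup_cons] at this
        exact List.Nodup.of_map _ this.2
      have key : l1 ++ e' :: (e :: l2) = m1 ++ e' :: (f :: m2) := hpe.symm.trans hqe
      have n1 : e' ∉ l1 := by
        rw [hpe] at hnd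
        have := List.nodup_append.1 hnd
        intro hmem
        exact this.2.2 e' hmem e' (by simp) rfl
      have n2 : e' ∉ m1 := by
        rw [hqe] at hnd
        have := List.nodup_append.1 hnd
        intro hmem
        exact this.2.2 e' hmem e' (by simp) rfl
      have n3 : e' ∉ (e :: l2) := by
        rw [hpe] at hnd
        have := List.nodup_append.1 hnd
        exact (List.nodup_cons.1 this.2.1).1
      have := (List.append_cons_inj_of_notMem n1 n3).1 key
      have h4 := this.2.2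
      exact (List.cons.inj h4).1
    · exact absurd (show e' ∈ q by rw [hqe]; simp)
        (h2 p hp q hq hpq e' (by rw [hpe]; simp))
  -- (3)
  have P3 : ∀ e, (∃ p ∈ Ps, e ∈ p) → tl e ≠ r → ∃ e', PreR Ps e' e := by
    rintro e ⟨p, hp, he⟩ ht
    obtain ⟨s, t, hst⟩ := List.append_of_mem he
    rcases List.eq_nil_or_concat s with hs | ⟨s', e', hs⟩
    · subst hs
      have hw := (h1 _ hp).1.1
      rw [hst] at hw
      exact absurd hw.1 ht
    · refine ⟨e', p, hp, s', t, ?_⟩
      rw [hst, hs]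
      simp
  have P4 : ∀ e' e, PreR Ps e' e → ∃ p ∈ Ps, e' ∈ p := by
    rintro e' e ⟨p, hp, l1, l2, rfl⟩
    exact ⟨_, hp, by simp⟩
  let μ : E → E := fun e => if h : ∃ e', PreR Ps e' e then h.choose else e
  have M1 : ∀ e, (∃ e', PreR Ps e' e) → PreR Ps (μ e) e := by
    intro e he
    have : μ e = he.choose := dif_pos he
    rw [this]
    exact he.choose_spec
  have M2 : ∀ e, (¬ ∃ e', PreR Ps e' e) → μ e = e := fun e he => dif_neg he
  refine ⟨μ, ?_, ?_⟩
  · intro x hx y hy hxy
    by_cases h4 : ∃ e', PreR Ps e' x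
    · by_cases h5 : ∃ e', PreR Ps e' y
      · have a1 := M1 x h4
        have a2 := M1 y h5
        rw [hxy] at a1
        exact P2 _ _ _ a1 a2
      · have a1 := M1 x h4
        rw [hxy, M2 y h5] at a1
        exact absurd (P3 y (P4 _ _ a1) hy.1) h5
    · by_cases h5 : ∃ e', PreR Ps e' y
      · have a1 := M1 y h5
        rw [← hxy, M2 x h4] at a1
        exact absurd (P3 x (P4 _ _ a1) hx.1) h4
      · rw [M2 x h4, M2 y h5] at hxy
        exact hxy
  · intro x hx
    by_cases h4 : ∃ e', PreR Ps e' x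
    · have a1 := M1 x h4
      obtain ⟨b1, b2, b3⟩ := P1 _ _ a1
      refine ⟨?_, Or.inr ⟨b3, b2, b1⟩⟩
      intro hmem
      have c1 : hd (μ x) = v := hI hmem
      have c2 : tl x = v := b1.symm.trans c1
      have c3 : Step tl hd v (hd x) := ⟨x, c2, rfl⟩
      exact hac v (Relation.TransGen.head' c3 hx.2)
    · rw [M2 x h4]
      refine ⟨?_, Or.inl rfl⟩
      intro hmem
      exact h4 (P3 x (h3 x hmem) hx.1)

end Pool.Agent.FLM
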