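import Pool.Agent.FLM.Defs

namespace Pool.Agent.FLM

open Set

universe u w

variable {V : Type u} {E : Type w}

private theorem TB_reach {tl hd : E → V} {l : List E} {a b c : V} (h : IsWalk tl hd a l b)
    (hc : c ∈ a :: l.map hd) : Anc tl hd a c := by
  induction l generalizing a with
  | nil =>
    rw [List.map_nil, List.mem_singleton] at hc
    rw [hc]
    exact Relation.ReflTransGen.refl
  | cons e l ih =>
    rw [List.mem_cons] at hc
    rcases hc with rfl | hc
    · exact Relation.ReflTransGen.refl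
    · rw [List.map_cons] at hc
      exact Relation.ReflTransGen.head ⟨e, h.1, rfl⟩ (ih h.2 hc)

private theorem TB_nodup {tl hd : E → V} (hac : ∀ a, ¬ Relation.TransGen (Step tl hd) a a)
    {l : List E} {a b : V} (h : IsWalk tl hd a l b) : (a :: l.map hd).Nodup := by
  induction l generalizing a with
  | nil => simp
  | cons e l ih =>
    rw [List.nodup_cons]
    refine ⟨fun hmem => ?_, ?_⟩
    · rw [List.map_cons] at hmem
      have h1 := TB_reach h.2 hmem
      exact hac a (Relation.TransGen.head' ⟨e, h.1, rfl⟩ h1)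
    · rw [List.map_cons]
      exact ih h.2

/-- the list `[μ^k e, ..., μ e, e]` -/
private def TB_L (μ : E → E) (e : E) : ℕ → List E
  | 0 => [e]
  | k + 1 => μ^[k + 1] e :: TB_L μ e k

private theorem TB_mem {μ : E → E} {e x : E} {k : ℕ} :
    x ∈ TB_L μ e k ↔ ∃ j, j ≤ k ∧ x = μ^[j] e := by
  induction k with
  | zero =>
    unfold TB_L
    rw [List.mem_singleton]
    constructor
    · intro h
      exact ⟨0, le_rfl, h⟩
    · rintro ⟨j, hj, h⟩
      obtain rfl : j = 0 := by omega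
      exact h
  | succ k ih =>
    unfold TB_L
    rw [List.mem_cons, ih]
    constructor
    · rintro (h | ⟨j, hj, h⟩)
      · exact ⟨k + 1, le_rfl, h⟩
      · exact ⟨j, by omega, h⟩
    · rintro ⟨j, hj, h⟩
      rcases Nat.lt_or_ge k j with h1 | h1
      · obtain rfl : j = k + 1 := by omega
        exact Or.inl h
      · exact Or.inr ⟨j, h1, h⟩

private theorem TB_facts {tl hd : E → V} {r v : V} {A I : Set E}
    (hI : I ⊆ {e | e ∈ A ∧ hd e = v}) {μ : E → E} (h : IsM tl hd r A v I μ) {e : E}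
    (he : e ∈ I) (k : ℕ) (hk : ∀ j < k, tl (μ^[j] e) ≠ r) :
    μ^[k] e ∈ A ∧ Anc tl hd (hd (μ^[k] e)) v ∧
      (tl (μ^[k] e) ≠ r → μ (μ^[k] e) ≠ μ^[k] e) := by
  induction k with
  | zero =>
    refine ⟨(hI he).1, ?_, ?_⟩
    · change Anc tl hd (hd e) v
      rw [(hI he).2]
      exact Relation.ReflTransGen.refl
    · intro hr heq
      change μ e = e at heq
      have hx : e ∈ XS tl hd r v := ⟨hr, by rw [(hI he).2]; exact Relation.ReflTransGen.refl⟩
      have := (h.2 e hx).1
      rw [heq] at this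
      exact this he
  | succ k ih =>
    obtain ⟨h1, h2, h3⟩ := ih fun j hj => hk j (by omega)
    have hr := hk k (by omega)
    have hx : μ^[k] e ∈ XS tl hd r v := ⟨hr, h2⟩
    have hne := h3 hr
    rw [Function.iterate_succ_apply']
    rcases (h.2 _ hx).2 with h4 | ⟨_, h5, h6⟩
    · exact absurd h4 hne
    · have hanc : Anc tl hd (hd (μ (μ^[k] e))) v := by
        rw [h6]
        exact Relation.ReflTransGen.head ⟨μ^[k] e, rfl, rfl⟩ h2
      refine ⟨h5, hanc, fun hr' heq => ?_⟩
      exact hne (h.1 ⟨hr', hanc⟩ hx heq)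

private theorem TB_hd {tl hd : E → V} {r v : V} {A I : Set E}
    (hI : I ⊆ {e | e ∈ A ∧ hd e = v}) {μ : E → E} (h : IsM tl hd r A v I μ) {e : E}
    (he : e ∈ I) (k : ℕ) (hk : ∀ j < k + 1, tl (μ^[j] e) ≠ r) :
    hd (μ^[k + 1] e) = tl (μ^[k] e) := by
  obtain ⟨h1, h2, h3⟩ := TB_facts hI h he k fun j hj => hk j (by omega)
  have hr := hk k (by omega)
  rw [Function.iterate_succ_apply']
  rcases (h.2 _ ⟨hr, h2⟩).2 with h4 | ⟨_, _, h6⟩
  · exact absurd h4 (h3 hr)
  · exact h6

private theorem TB_walk {tl hd : E → V} {r v : V} {A I : Set E}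
    (hI : I ⊆ {e | e ∈ A ∧ hd e = v}) {μ : E → E} (h : IsM tl hd r A v I μ) {e : E}
    (he : e ∈ I) (k : ℕ) (hk : ∀ j < k, tl (μ^[j] e) ≠ r) :
    IsWalk tl hd (tl (μ^[k] e)) (TB_L μ e k) v := by
  induction k with
  | zero => exact ⟨rfl, (hI he).2⟩
  | succ k ih =>
    refine ⟨rfl, ?_⟩
    rw [TB_hd hI h he k hk]
    exact ih fun j hj => hk j (by omega)

private theorem TB_end {tl hd : E → V} {r v : V} (hwf : WellFounded (Step tl hd)) {A I : Set E}
    (hI : I ⊆ {e | e ∈ A ∧ hd e = v}) {μ : E → E} (h : IsM tl hd r A v I μ) {e : E}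
    (he : e ∈ I) : ∃ m, tl (μ^[m] e) = r := by
  by_contra hcon
  push Not at hcon
  have key : ∀ a : V, ∀ k, tl (μ^[k] e) = a → False := by
    intro a
    induction a using hwf.induction with
    | _ a ih =>
      intro k hk
      refine ih (tl (μ^[k + 1] e)) ⟨μ^[k + 1] e, rfl, ?_⟩ (k + 1) rfl
      rw [TB_hd hI h he k fun j _ => hcon j, hk]
  exact key _ 0 rfl

private theorem TB_back {tl hd : E → V} {r v : V} {A I : Set E}
    (hI : I ⊆ {e | e ∈ A ∧ hd e = v}) {μ : E → E} (h : IsM tl hd r A v I μ) {e e' : E}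
    (he : e ∈ I) (he' : e' ∈ I) {k i : ℕ} (hk : ∀ j < k, tl (μ^[j] e) ≠ r)
    (hi : ∀ j < k + i, tl (μ^[j] e') ≠ r) (heq : μ^[k] e = μ^[k + i] e') : e = e' := by
  have h0 : e = μ^[i] e' := by
    induction k with
    | zero => rwa [Nat.zero_add] at heq
    | succ k ih =>
      have hki : k + 1 + i = (k + i) + 1 := by omega
      rw [hki, Function.iterate_succ_apply', Function.iterate_succ_apply'] at heq
      have h1 := TB_facts hI h he k fun j hj => hk j (by omega)
      have h2 := TB_facts hI h he' (k + i) fun j hj => hi j (by omega)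
      exact ih (fun j hj => hk j (by omega)) (fun j hj => hi j (by omega))
        (h.1 ⟨hk k (by omega), h1.2.1⟩ ⟨hi (k + i) (by omega), h2.2.1⟩ heq)
  cases i with
  | zero => exact h0
  | succ i =>
    exfalso
    rw [Function.iterate_succ_apply'] at h0
    have h2 := TB_facts hI h he' i fun j hj => hi j (by omega)
    have h3 := (h.2 _ ⟨hi i (by omega), h2.2.1⟩).1
    rw [← h0] at h3
    exact h3 he

theorem isM_to_linkable (tl hd : E → V) (r : V)
    (hac : ∀ a, ¬ Relation.TransGen (Step tl hd) a a) (hwf : WellFounded (Step tl hd))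
    (A : Set E) (v : V) (I : Set E) (hI : I ⊆ {e | e ∈ A ∧ hd e = v}) (μ : E → E)
    (h : IsM tl hd r A v I μ) : Linkable tl hd r A v I := by
  classical
  have hend : ∀ e, ∃ m, e ∈ I → tl (μ^[m] e) = r ∧ ∀ j < m, tl (μ^[j] e) ≠ r := by
    intro e
    by_cases he : e ∈ I
    · have hex := TB_end hwf hI h he
      exact ⟨Nat.find hex, fun _ => ⟨Nat.find_spec hex, fun j hj => Nat.find_min hex hj⟩⟩
    · exact ⟨0, fun h => absurd h he⟩
  choose m hm using hend
  refine ⟨{p | ∃ e ∈ I, p = TB_L μ e (m e)}, ?_, ?_, ?_⟩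
  · rintro p ⟨e, he, rfl⟩
    obtain ⟨h1, h2⟩ := hm e he
    have hw := TB_walk hI h he (m e) h2
    rw [h1] at hw
    refine ⟨⟨hw, TB_nodup hac hw⟩, ?_⟩
    intro x hx
    obtain ⟨j, hj, rfl⟩ := TB_mem.1 hx
    exact (TB_facts hI h he j fun i hi => h2 i (by omega)).1
  · rintro p ⟨e, he, rfl⟩ q ⟨e', he', rfl⟩ hne x hx hx'
    apply hne
    obtain ⟨h1, h2⟩ := hm e he
    obtain ⟨h1', h2'⟩ := hm e' he'
    obtain ⟨k, hk, rfl⟩ := TB_mem.1 hx
    obtain ⟨l, hl, heq⟩ := TB_mem.1 hx'
    have hee : e = e' := by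
      rcases le_total k l with hkl | hkl
      · obtain ⟨i, rfl⟩ := Nat.exists_eq_add_of_le hkl
        exact TB_back hI h he he' (fun j hj => h2 j (by omega)) (fun j hj => h2' j (by omega)) heq
      · obtain ⟨i, rfl⟩ := Nat.exists_eq_add_of_le hkl
        exact (TB_back hI h he' he (fun j hj => h2' j (by omega))
          (fun j hj => h2 j (by omega)) heq.symm).symm
    rw [hee]
  · intro e he
    exact ⟨_, ⟨e, he, rfl⟩, TB_mem.2 ⟨0, Nat.zero_le _, rfl⟩⟩

end Pool.Agent.FLM
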